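import Pool.Agent.Helper44.KS.GoalsC

/-!
# Kahn-Saks, goal COV: up to small probability the configuration lies in boundedly many small sets
-/

namespace Pool.Agent.Helper7.KS

open MeasureTheory Filter Topology Set
open Pool.Agent.Helper44.KS

noncomputable section

lemma a_x {c : ℝ} (Z : KSys c) : Z.a Z.x = 0 := by
  unfold KSys.a
  exact integral_eq_zero_of_ae Z.ref

lemma Y_x {c : ℝ} (Z : KSys c) : ∀ᵐ d ∂Z.μ, Z.Y d Z.x = 0 := by
  filter_upwards [Z.ref] with d hd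
  simp [KSys.Y, hd, a_x]

/-- Reindexing by a standard finite type. -/
lemma idx {X ι : Type*} [Fintype ι] [MeasurableSpace X] (M : ℕ) (hM : Fintype.card ι ≤ M)
    (E : ι → Set X) (hE : ∀ i, MeasurableSet (E i)) (P : X → X → Prop)
    (hP : ∀ i, ∀ d ∈ E i, ∀ d' ∈ E i, P d d') :
    ∃ E' : Fin M → Set X, (∀ i, MeasurableSet (E' i)) ∧
      (∀ i, ∀ d ∈ E' i, ∀ d' ∈ E' i, P d d') ∧ (⋃ i, E i) ⊆ ⋃ i, E' i := by
  classical
  have hcard : Fintype.card ι ≤ Fintype.card (Fin M) := by simpa using hM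
  obtain ⟨f⟩ := Function.Embedding.nonempty_of_card_le hcard
  refine ⟨fun i => ⋃ j, ⋃ (_ : f j = i), E j, ?_, ?_, ?_⟩
  · intro i
    exact MeasurableSet.iUnion fun j => MeasurableSet.iUnion fun _ => hE j
  · intro i d hd d' hd'
    simp only [mem_iUnion, exists_prop] at hd hd'
    obtain ⟨j, hj, hd⟩ := hd
    obtain ⟨j', hj', hd'⟩ := hd'
    have : j = j' := f.injective (hj.trans hj'.symm)
    subst this
    exact hP j d hd d' hd'
  · intro d hd
    simp only [mem_iUnion, exists_prop] at hd ⊢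
    obtain ⟨j, hj⟩ := hd
    exact ⟨f j, j, rfl, hj⟩

lemma S_pos {c : ℝ} (Z : KSys c) : 0 < Z.S := lt_of_lt_of_le one_pos Z.one_le

/-- The number of elements of the window. -/
lemma card_le (h : S_CNT) {c : ℝ} (Z : KSys c) (C : ℝ) (hC : 0 ≤ C) :
    (((Z.W Z.S).filter fun p => ¬ C < |Z.a p|).card : ℝ) ≤ 15 * (2 * C + 2) * Z.S := by
  have h1 := h c Z (-C) C (by linarith)
  have h2 : ((Z.W Z.S).filter fun p => ¬ C < |Z.a p|).card ≤
      (Finset.univ.filter fun p => -C ≤ Z.a p ∧ Z.a p ≤ C).card := by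
    apply Finset.card_le_card
    intro p hp
    simp only [Finset.mem_filter, not_lt, Finset.mem_univ, true_and] at hp ⊢
    exact abs_le.mp hp.2
  calc (((Z.W Z.S).filter fun p => ¬ C < |Z.a p|).card : ℝ) ≤
      ((Finset.univ.filter fun p => -C ≤ Z.a p ∧ Z.a p ≤ C).card : ℝ) := by exact_mod_cast h2
    _ ≤ 15 * (C - (-C) + 2) * Z.S := h1
    _ = _ := by ring

/-- The bound on `nq` of a function which is bounded on the window and zero outside. -/
lemma nq_le_of_window (h : S_CNT) {c : ℝ} (Z : KSys c) (C : ℝ) (hC : 0 ≤ C) (f : Fin Z.n → ℝ)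
    (b : ℝ) (hf : ∀ p, ¬ C < |Z.a p| → f p ^ 2 ≤ b) (h0 : ∀ p, C < |Z.a p| → f p = 0)
    (hb : 0 ≤ b) :
    Z.nq f ≤ 15 * (2 * C + 2) * b := by
  unfold KSys.nq
  rw [div_le_iff₀ (S_pos Z)]
  rw [← Finset.sum_filter_add_sum_filter_not (Z.W Z.S) (fun p => C < |Z.a p|)]
  have h1 : ∑ p ∈ (Z.W Z.S).filter (fun p => C < |Z.a p|), f p ^ 2 / (1 + Z.a p ^ 2) = 0 := by
    apply Finset.sum_eq_zero
    intro p hp
    rw [h0 p (Finset.mem_filter.mp hp).2]
    simp
  rw [h1, zero_add]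
  calc ∑ p ∈ (Z.W Z.S).filter (fun p => ¬ C < |Z.a p|), f p ^ 2 / (1 + Z.a p ^ 2)
      ≤ ∑ p ∈ (Z.W Z.S).filter (fun p => ¬ C < |Z.a p|), b := by
        apply Finset.sum_le_sum
        intro p hp
        have h2 := hf p (Finset.mem_filter.mp hp).2
        have h3 : f p ^ 2 / (1 + Z.a p ^ 2) ≤ f p ^ 2 :=
          div_le_self (sq_nonneg _) (by nlinarith [sq_nonneg (Z.a p)])
        exact h3.trans h2
    _ = (((Z.W Z.S).filter fun p => ¬ C < |Z.a p|).card : ℝ) * b := by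
        rw [Finset.sum_const, nsmul_eq_mul]
    _ ≤ (15 * (2 * C + 2) * Z.S) * b := mul_le_mul_of_nonneg_right (card_le h Z C hC) hb
    _ = 15 * (2 * C + 2) * b * Z.S := by ring

theorem cov (h1 : S_CLU) (h2 : S_M3K) (h3 : S_SEC) (h4 : S_CNT) (h5 : S_NQS) : S_COV := by
  classical
  intro c ρ η hc hρ hη
  obtain ⟨K0, hK0, hM⟩ := h2
  -- the constants
  set ε : ℝ := η * ρ ^ 2 / 64 with hε
  have hεpos : 0 < ε := by positivity
  obtain ⟨C, hC1, hSEC⟩ := h3.2 ε hεpos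
  have hC0 : 0 ≤ C := by linarith
  set A : ℝ := 15 * (2 * C + 2) with hA
  have hApos : 0 < A := by positivity
  set θ : ℝ := √(ε / (A * K0)) with hθ
  have hθpos : 0 < θ := Real.sqrt_pos.mpr (by positivity)
  have hθ2 : A * (K0 * θ ^ 2) = ε := by
    rw [hθ, Real.sq_sqrt (by positivity)]
    field_simp
  obtain ⟨k, hk⟩ := h1 c C θ hc (by linarith) hθpos
  set e : ℝ := 4 + √C with he
  have hepos : 0 < e := by positivity
  set B : ℝ := 2 * k * e / η + 1 with hB
  have hBpos : 0 < B := by positivity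
  set δ : ℝ := √(ρ ^ 2 / (16 * A)) with hδ
  have hδpos : 0 < δ := Real.sqrt_pos.mpr (by positivity)
  have hδ2 : A * δ ^ 2 = ρ ^ 2 / 16 := by
    rw [hδ, Real.sq_sqrt (by positivity)]
    field_simp
  set N : ℕ := ⌈2 * B / δ⌉₊ with hN
  refine ⟨(N + 1) ^ k, fun Z => ?_⟩
  obtain ⟨K, hKW, hKk, hKcov⟩ := hk Z
  obtain ⟨htri, -, hnn, -⟩ := h5 c Z
  -- the cluster centre
  have hcl : ∀ p, ∃ q, ¬ C < |Z.a p| → q ∈ K ∧ Z.dist p q ≤ θ := by
    intro p
    by_cases hp : C < |Z.a p|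
    · exact ⟨p, fun h => absurd hp h⟩
    · have : p ∈ Z.W C := by
        simp only [KSys.W, Finset.mem_filter, Finset.mem_univ, true_and]
        exact not_lt.mp hp
      obtain ⟨q, hq, hq'⟩ := hKcov p this
      exact ⟨q, fun _ => ⟨hq, hq'⟩⟩
  choose cl hcl using hcl
  -- the approximation
  set Pi : (Fin Z.n → ℝ) → Fin Z.n → ℝ := fun d p => if C < |Z.a p| then 0 else Z.Y d (cl p)
    with hPi
  have hYm : ∀ p, Measurable fun d => Z.Y d p := fun p => (measurable_pi_apply p).sub_const _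
  have hPim : ∀ p, Measurable fun d => Pi d p := by
    intro p
    by_cases hp : C < |Z.a p|
    · simp only [hPi, hp, if_true]; exact measurable_const
    · simp only [hPi, hp, if_false]; exact hYm _
  set Q : (Fin Z.n → ℝ) → ℝ := fun d => Z.nq (fun p => Z.Y d p - Pi d p) with hQ
  have hQm : Measurable Q := by
    simp only [hQ, KSys.nq]
    refine Measurable.div_const (Finset.measurable_sum _ fun p _ => ?_) _
    exact (((hYm p).sub (hPim p)).pow_const 2).div_const _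
  -- integrability and the mean of the terms
  have hterm : ∀ p, Integrable (fun d => (Z.Y d p - Pi d p) ^ 2) Z.μ := by
    intro p
    by_cases hp : C < |Z.a p|
    · have h6 := (hM c Z p Z.x).1
      refine h6.congr ?_
      filter_upwards [Y_x Z] with d hd
      simp only [hPi, hp, if_true, hd, sq_abs]
    · have h6 := (hM c Z p (cl p)).1
      refine h6.congr (Eventually.of_forall fun d => ?_)
      simp only [hPi, hp, if_false, sq_abs]
  have hQint : Integrable Q Z.μ := by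
    simp only [hQ, KSys.nq]
    refine Integrable.div_const (integrable_finsetSum _ fun p _ => ?_) _
    exact (hterm p).div_const _
  have hQE : ∫ d, Q d ∂Z.μ ≤ 2 * ε := by
    have e1 : ∫ d, Q d ∂Z.μ =
        (∑ p ∈ Z.W Z.S, (∫ d, (Z.Y d p - Pi d p) ^ 2 ∂Z.μ) / (1 + Z.a p ^ 2)) / Z.S := by
      simp only [hQ, KSys.nq]
      rw [integral_div, integral_finsetSum _ fun p _ => (hterm p).div_const _]
      congr 1
      refine Finset.sum_congr rfl fun p _ => ?_
      rw [integral_div]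
    rw [e1, ← Finset.sum_filter_add_sum_filter_not (Z.W Z.S) (fun p => C < |Z.a p|), add_div]
    have e2 : (∑ p ∈ (Z.W Z.S).filter (fun p => C < |Z.a p|),
        (∫ d, (Z.Y d p - Pi d p) ^ 2 ∂Z.μ) / (1 + Z.a p ^ 2)) / Z.S ≤ ε := by
      refine le_trans (le_of_eq ?_) (hSEC c Z)
      congr 1
      refine Finset.sum_congr rfl fun p hp => ?_
      have hp' := (Finset.mem_filter.mp hp).2
      simp only [hPi, hp', if_true, sub_zero]
    have e3 : (∑ p ∈ (Z.W Z.S).filter (fun p => ¬ C < |Z.a p|),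
        (∫ d, (Z.Y d p - Pi d p) ^ 2 ∂Z.μ) / (1 + Z.a p ^ 2)) / Z.S ≤ ε := by
      rw [div_le_iff₀ (S_pos Z)]
      calc ∑ p ∈ (Z.W Z.S).filter (fun p => ¬ C < |Z.a p|),
          (∫ d, (Z.Y d p - Pi d p) ^ 2 ∂Z.μ) / (1 + Z.a p ^ 2)
          ≤ ∑ p ∈ (Z.W Z.S).filter (fun p => ¬ C < |Z.a p|), K0 * θ ^ 2 := by
            refine Finset.sum_le_sum fun p hp => ?_
            have hp' := (Finset.mem_filter.mp hp).2
            have h7 : (∫ d, (Z.Y d p - Pi d p) ^ 2 ∂Z.μ) ≤ K0 * θ ^ 2 := by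
              have h8 := (hM c Z p (cl p)).2.2.1
              have h9 : ∫ d, (Z.Y d p - Pi d p) ^ 2 ∂Z.μ =
                  ∫ d, |Z.Y d p - Z.Y d (cl p)| ^ 2 ∂Z.μ := by
                refine integral_congr_ae (Eventually.of_forall fun d => ?_)
                simp only [hPi, hp', if_false, sq_abs]
              have h10 : 0 ≤ Z.dist p (cl p) := integral_nonneg fun d => abs_nonneg _
              have h11 : Z.dist p (cl p) ^ 2 ≤ θ ^ 2 :=
                pow_le_pow_left₀ h10 (hcl p hp').2 2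
              rw [h9]
              exact h8.trans (mul_le_mul_of_nonneg_left h11 hK0.le)
            have h12 : 0 ≤ ∫ d, (Z.Y d p - Pi d p) ^ 2 ∂Z.μ :=
              integral_nonneg fun d => sq_nonneg _
            exact (div_le_self h12 (by nlinarith [sq_nonneg (Z.a p)])).trans h7
        _ = (((Z.W Z.S).filter fun p => ¬ C < |Z.a p|).card : ℝ) * (K0 * θ ^ 2) := by
            rw [Finset.sum_const, nsmul_eq_mul]
        _ ≤ (A * Z.S) * (K0 * θ ^ 2) :=
            mul_le_mul_of_nonneg_right (card_le h4 Z C hC0) (by positivity)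
        _ = ε * Z.S := by rw [← hθ2]; ring
    linarith
  have hQ0 : ∀ d, 0 ≤ Q d := fun d => hnn _
  have hbad1 : Z.μ.real {d | ρ ^ 2 / 16 ≤ Q d} ≤ η / 2 := by
    have h6 := mul_meas_ge_le_integral_of_nonneg (μ := Z.μ) (Eventually.of_forall hQ0) hQint
      (ρ ^ 2 / 16)
    have h7 : ρ ^ 2 / 16 * Z.μ.real {d | ρ ^ 2 / 16 ≤ Q d} ≤ ρ ^ 2 / 16 * (η / 2) := by
      calc _ ≤ _ := h6
        _ ≤ 2 * ε := hQE
        _ = ρ ^ 2 / 16 * (η / 2) := by rw [hε]; ring
    exact le_of_mul_le_mul_left h7 (by positivity)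
  have hbad2 : ∀ q ∈ K, Z.μ.real {d | B ≤ |Z.Y d q|} ≤ e / B := by
    intro q hq
    have hint : Integrable (fun d => |Z.Y d q|) Z.μ :=
      ((Z.int q).sub (integrable_const _)).abs
    have h6 := mul_meas_ge_le_integral_of_nonneg (μ := Z.μ)
      (Eventually.of_forall fun d => abs_nonneg (Z.Y d q)) hint B
    have h7 : ∫ d, |Z.Y d q| ∂Z.μ ≤ e := by
      have h8 := Z.m2 q
      have h9 : |Z.a q| ≤ C := by
        have := hKW hq
        simpa [KSys.W] using this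
      have h10 : √|Z.a q| ≤ √C := Real.sqrt_le_sqrt h9
      calc ∫ d, |Z.Y d q| ∂Z.μ ≤ 4 + √|Z.a q| := h8
        _ ≤ e := by rw [he]; linarith
    rw [le_div_iff₀ hBpos, mul_comm]
    exact h6.trans h7
  have hkB : (k : ℝ) * (e / B) ≤ η / 2 := by
    rw [mul_div_assoc', div_le_iff₀ hBpos, hB]
    have : η / 2 * (2 * k * e / η + 1) = k * e + η / 2 := by field_simp
    rw [this]
    linarith
  -- the cells
  set E : ((q : {q // q ∈ K}) → Fin (N + 1)) → Set (Fin Z.n → ℝ) := fun φ =>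
    {d | Q d < ρ ^ 2 / 16} ∩ ⋂ q : {q // q ∈ K}, {d | |Z.Y d q| < B ∧
      ⌊(Z.Y d q + B) / δ⌋₊ = (φ q : ℕ)} with hE
  have hEm : ∀ φ, MeasurableSet (E φ) := by
    intro φ
    refine (measurableSet_lt hQm measurable_const).inter (MeasurableSet.iInter fun q => ?_)
    refine MeasurableSet.inter (measurableSet_lt (hYm q).abs measurable_const) ?_
    exact measurableSet_eq_fun (Nat.measurable_floor.comp (((hYm q).add_const B).div_const δ))
      measurable_const
  have hEd : ∀ φ, ∀ d ∈ E φ, ∀ d' ∈ E φ, Z.nq (fun p => d p - d' p) ≤ ρ ^ 2 := by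
    intro φ d hd d' hd'
    simp only [hE, mem_inter_iff, mem_iInter, mem_ofPred_eq] at hd hd'
    have hq : ∀ q ∈ K, |Z.Y d q - Z.Y d' q| ≤ δ := by
      intro q hq
      obtain ⟨g1, g2⟩ := hd.2 ⟨q, hq⟩
      obtain ⟨g3, g4⟩ := hd'.2 ⟨q, hq⟩
      simp only at g1 g2 g3 g4
      have g5 : 0 ≤ (Z.Y d q + B) / δ := div_nonneg (by linarith [(abs_lt.mp g1).1]) hδpos.le
      have g6 : 0 ≤ (Z.Y d' q + B) / δ := div_nonneg (by linarith [(abs_lt.mp g3).1]) hδpos.le
      have g7 := Nat.floor_le g5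
      have g8 := Nat.lt_floor_add_one ((Z.Y d q + B) / δ)
      have g9 := Nat.floor_le g6
      have g10 := Nat.lt_floor_add_one ((Z.Y d' q + B) / δ)
      rw [g2] at g7 g8
      rw [g4] at g9 g10
      have g11 : |(Z.Y d q + B) / δ - (Z.Y d' q + B) / δ| ≤ 1 := by
        rw [abs_le]; constructor <;> linarith
      rw [← sub_div, abs_div, abs_of_pos hδpos, div_le_iff₀ hδpos, one_mul] at g11
      have g12 : Z.Y d q + B - (Z.Y d' q + B) = Z.Y d q - Z.Y d' q := by ring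
      rwa [g12] at g11
    have hmid : Z.nq (fun p => Pi d p - Pi d' p) ≤ ρ ^ 2 / 16 := by
      rw [← hδ2, hA]
      refine nq_le_of_window h4 Z C hC0 _ _ ?_ ?_ (sq_nonneg _)
      · intro p hp
        simp only [hPi, hp, if_false]
        have g1 := hq (cl p) (hcl p hp).1
        rw [← sq_abs]
        exact pow_le_pow_left₀ (abs_nonneg _) g1 2
      · intro p hp
        simp only [hPi, hp, if_true, sub_zero]
    have hsq : √(ρ ^ 2 / 16) = ρ / 4 := by
      rw [show ρ ^ 2 / 16 = (ρ / 4) ^ 2 by ring, Real.sqrt_sq (by positivity)]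
    have t1 : √(Q d) ≤ ρ / 4 := by rw [← hsq]; exact Real.sqrt_le_sqrt hd.1.le
    have t2 : √(Q d') ≤ ρ / 4 := by rw [← hsq]; exact Real.sqrt_le_sqrt hd'.1.le
    have t3 : √(Z.nq (fun p => Pi d p - Pi d' p)) ≤ ρ / 4 := by
      rw [← hsq]; exact Real.sqrt_le_sqrt hmid
    have t4 : √(Z.nq (fun p => -(Z.Y d' p - Pi d' p))) = √(Q d') := by
      congr 1
      simp only [hQ, KSys.nq, neg_sq]
    have t5 : √(Z.nq (fun p => d p - d' p)) ≤ ρ := by
      have u1 := htri (fun p => Z.Y d p - Pi d p)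
        (fun p => (Pi d p - Pi d' p) + -(Z.Y d' p - Pi d' p))
      have u2 := htri (fun p => Pi d p - Pi d' p) (fun p => -(Z.Y d' p - Pi d' p))
      have u3 : (fun p => (Z.Y d p - Pi d p) + ((Pi d p - Pi d' p) + -(Z.Y d' p - Pi d' p))) =
          fun p => d p - d' p := by
        funext p
        simp only [KSys.Y]
        ring
      rw [u3] at u1
      have u4 : √(Z.nq fun p => Z.Y d p - Pi d p) = √(Q d) := rfl
      rw [u4] at u1
      rw [t4] at u2
      linarith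
    have t6 : Z.nq (fun p => d p - d' p) = √(Z.nq (fun p => d p - d' p)) ^ 2 :=
      (Real.sq_sqrt (hnn _)).symm
    rw [t6]
    exact pow_le_pow_left₀ (Real.sqrt_nonneg _) t5 2
  have hcov : (univ : Set (Fin Z.n → ℝ)) ⊆
      (({d | ρ ^ 2 / 16 ≤ Q d} ∪ ⋃ q ∈ K, {d | B ≤ |Z.Y d q|}) ∪ ⋃ φ, E φ) := by
    intro d _
    by_cases hd1 : ρ ^ 2 / 16 ≤ Q d
    · exact Or.inl (Or.inl hd1)
    by_cases hd2 : ∃ q ∈ K, B ≤ |Z.Y d q|
    · obtain ⟨q, hq, hq'⟩ := hd2
      refine Or.inl (Or.inr ?_)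
      simp only [mem_iUnion, exists_prop]
      exact ⟨q, hq, hq'⟩
    push Not at hd1 hd2
    refine Or.inr ?_
    simp only [mem_iUnion]
    have hlt : ∀ q : {q // q ∈ K}, ⌊(Z.Y d q + B) / δ⌋₊ < N + 1 := by
      intro q
      have g1 := hd2 q q.2
      have g2 := abs_lt.mp g1
      have g5 : 0 ≤ (Z.Y d q + B) / δ := div_nonneg (by linarith) hδpos.le
      rw [Nat.floor_lt g5]
      have g6 : (Z.Y d q + B) / δ ≤ 2 * B / δ :=
        div_le_div_of_nonneg_right (by linarith) hδpos.le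
      have g7 : 2 * B / δ ≤ (N : ℝ) := Nat.le_ceil _
      push_cast
      linarith
    refine ⟨fun q => ⟨_, hlt q⟩, ?_⟩
    simp only [hE, mem_inter_iff, mem_iInter]
    exact ⟨hd1, fun q => ⟨hd2 q q.2, rfl⟩⟩
  have hcard : Fintype.card ((q : {q // q ∈ K}) → Fin (N + 1)) ≤ (N + 1) ^ k := by
    rw [Fintype.card_fun, Fintype.card_fin, Fintype.card_coe]
    exact Nat.pow_le_pow_right (by omega) hKk
  obtain ⟨E', hE'm, hE'd, hE'c⟩ := idx ((N + 1) ^ k) hcard E hEm
    (fun d d' => Z.nq (fun p => d p - d' p) ≤ ρ ^ 2) hEd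
  refine ⟨E', hE'm, hE'd, ?_⟩
  have m1 : (1 : ℝ) = Z.μ.real univ := by simp
  have m2 : Z.μ.real univ ≤ Z.μ.real
      (({d | ρ ^ 2 / 16 ≤ Q d} ∪ ⋃ q ∈ K, {d | B ≤ |Z.Y d q|}) ∪ ⋃ φ, E φ) :=
    measureReal_mono hcov
  have m3 := measureReal_union_le (μ := Z.μ)
    ({d | ρ ^ 2 / 16 ≤ Q d} ∪ ⋃ q ∈ K, {d | B ≤ |Z.Y d q|}) (⋃ φ, E φ)
  have m4 := measureReal_union_le (μ := Z.μ) {d | ρ ^ 2 / 16 ≤ Q d}
    (⋃ q ∈ K, {d | B ≤ |Z.Y d q|})
  have m5 : Z.μ.real (⋃ q ∈ K, {d | B ≤ |Z.Y d q|}) ≤ η / 2 := by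
    calc Z.μ.real (⋃ q ∈ K, {d | B ≤ |Z.Y d q|}) ≤
        ∑ q ∈ K, Z.μ.real {d | B ≤ |Z.Y d q|} := measureReal_biUnion_finset_le _ _
      _ ≤ ∑ q ∈ K, e / B := Finset.sum_le_sum hbad2
      _ = (K.card : ℝ) * (e / B) := by rw [Finset.sum_const, nsmul_eq_mul]
      _ ≤ (k : ℝ) * (e / B) := by
          refine mul_le_mul_of_nonneg_right ?_ (by positivity)
          exact_mod_cast hKk
      _ ≤ η / 2 := hkB
  have m6 : Z.μ.real (⋃ φ, E φ) ≤ Z.μ.real (⋃ i, E' i) := measureReal_mono hE'c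
  linarith

end

end Pool.Agent.Helper7.KS
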