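import Mathlib

set_option autoImplicit false
open Classical

namespace Pool.Agent.Helper7.KS

/-- fractional colouring of total weight at most `x`: nonnegative weights on independent sets,
every vertex is covered with total weight at least `1`. -/
def FracColorable {V : Type} [Fintype V] (G : SimpleGraph V) (x : ℝ) : Prop :=
  ∃ w : Finset V → ℝ, (∀ I, 0 ≤ w I) ∧
    (∀ I, w I ≠ 0 → ∀ a ∈ I, ∀ b ∈ I, ¬ G.Adj a b) ∧
    (∀ v, 1 ≤ ∑ I, if v ∈ I then w I else 0) ∧
    ∑ I, w I ≤ x

section Degen

variable {V : Type} [Fintype V]

/-- a `d`-degenerate graph has an injective ranking with back-degree at most `d`. -/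
theorem degen_rank (D : SimpleGraph V) (d : ℕ)
    (h : ∀ S : Finset V, S.Nonempty → ∃ v ∈ S, (S.filter (fun w => D.Adj v w)).card ≤ d) :
    ∃ r : V → ℕ, Function.Injective r ∧
      ∀ v, (Finset.univ.filter (fun w => D.Adj v w ∧ r w < r v)).card ≤ d := by
  have key : ∀ (n : ℕ) (S : Finset V), S.card = n →
      ∃ r : V → ℕ, Set.InjOn r S ∧ (∀ v ∈ S, r v < n) ∧
        ∀ v ∈ S, (S.filter (fun w => D.Adj v w ∧ r w < r v)).card ≤ d := by
    intro n
    induction n with
    | zero =>
      intro S hS
      have : S = ∅ := Finset.card_eq_zero.mp hS
      subst this
      exact ⟨fun _ => 0, by simp, by simp, by simp⟩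
    | succ n ih =>
      intro S hS
      have hne : S.Nonempty := by
        rw [← Finset.card_pos]; omega
      obtain ⟨v, hv, hvd⟩ := h S hne
      obtain ⟨r, hr1, hr2, hr3⟩ := ih (S.erase v) (by rw [Finset.card_erase_of_mem hv, hS]; rfl)
      refine ⟨Function.update r v n, ?_, ?_, ?_⟩
      · intro a ha b hb hab
        by_cases hav : a = v
        · by_cases hbv : b = v
          · rw [hav, hbv]
          · exfalso
            rw [hav, Function.update_self, Function.update_of_ne hbv] at hab
            have := hr2 b (Finset.mem_erase.mpr ⟨hbv, hb⟩)
            omega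
        · by_cases hbv : b = v
          · exfalso
            rw [hbv, Function.update_self, Function.update_of_ne hav] at hab
            have := hr2 a (Finset.mem_erase.mpr ⟨hav, ha⟩)
            omega
          · rw [Function.update_of_ne hav, Function.update_of_ne hbv] at hab
            exact hr1 (by simpa using ⟨ha, hav⟩) (by simpa using ⟨hb, hbv⟩) hab
      · intro a ha
        by_cases hav : a = v
        · rw [hav, Function.update_self]; omega
        · rw [Function.update_of_ne hav]
          have := hr2 a (Finset.mem_erase.mpr ⟨hav, ha⟩)
          omega
      · intro a ha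
        by_cases hav : a = v
        · subst hav
          refine le_trans (Finset.card_le_card ?_) hvd
          intro w hw
          rw [Finset.mem_filter] at hw ⊢
          exact ⟨hw.1, hw.2.1⟩
        · have ha' : a ∈ S.erase v := Finset.mem_erase.mpr ⟨hav, ha⟩
          refine le_trans (Finset.card_le_card ?_) (hr3 a ha')
          intro w hw
          rw [Finset.mem_filter] at hw ⊢
          have hwv : w ≠ v := by
            rintro rfl
            have h1 := hw.2.2
            rw [Function.update_self, Function.update_of_ne hav] at h1
            have := hr2 a ha'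
            omega
          have h1 := hw.2.2
          rw [Function.update_of_ne hwv, Function.update_of_ne hav] at h1
          exact ⟨Finset.mem_erase.mpr ⟨hwv, hw.1⟩, hw.2.1, h1⟩
  obtain ⟨r, hr1, -, hr3⟩ := key _ (Finset.univ : Finset V) rfl
  refine ⟨r, ?_, ?_⟩
  · intro a b hab
    exact hr1 (by simp) (by simp) hab
  · intro v
    exact hr3 v (Finset.mem_univ v)

end Degen

section Random

variable {V : Type} [Fintype V]

/-- the random greedy colouring, as a probability weight on all maps `V → Fin c`. -/
theorem random_greedy (r : V → ℕ) (hr : Function.Injective r) (W : V → Finset V)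
    (hW : ∀ v, ∀ w ∈ W v, r w < r v) (m e : ℕ) (he : 0 < e) (hWc : ∀ v, (W v).card ≤ m)
    (k : ℕ) :
    ∃ μ : (V → Fin (m + e)) → ℝ, (∀ φ, 0 ≤ μ φ) ∧ ∑ φ, μ φ = 1 ∧
      (∀ φ, μ φ ≠ 0 → ∀ v, r v < k → ∀ w ∈ W v, φ w ≠ φ v) ∧
      (∀ x y, x ≠ y → r x < k → r y < k →
        ∑ φ, (if φ x = φ y then μ φ else 0) ≤ 1 / (e : ℝ)) := by
  have hepos : (0 : ℝ) < e := by exact_mod_cast he
  induction k with
  | zero =>
    have : Nonempty (V → Fin (m + e)) := ⟨fun _ => ⟨0, by omega⟩⟩
    let φ0 : V → Fin (m + e) := fun _ => ⟨0, by omega⟩
    refine ⟨fun φ => if φ = φ0 then 1 else 0, ?_, ?_, ?_, ?_⟩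
    · intro φ
      dsimp only
      split_ifs <;> norm_num
    · simp
    · intro φ _ v hv; omega
    · intro x y _ hx; omega
  | succ k ih =>
    obtain ⟨μ, h0, h1, h2, h3⟩ := ih
    by_cases hp : ∃ p, r p = k
    · obtain ⟨p, hp⟩ := hp
      -- available colours
      let A : (V → Fin (m + e)) → Finset (Fin (m + e)) := fun φ => Finset.univ \ (W p).image φ
      have hA : ∀ φ, e ≤ (A φ).card := by
        intro φ
        have h4 : ((W p).image φ).card ≤ m := le_trans Finset.card_image_le (hWc p)
        have h5 : (A φ).card = m + e - ((W p).image φ).card := by
          simp only [A]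
          rw [Finset.card_sdiff_of_subset (Finset.subset_univ _), Finset.card_univ, Fintype.card_fin]
        omega
      have hApos : ∀ φ, (0 : ℝ) < (A φ).card := by
        intro φ
        have := hA φ
        exact_mod_cast lt_of_lt_of_le he this
      let ν : (V → Fin (m + e)) → ℝ := fun ψ =>
        ∑ φ, ∑ j ∈ A φ, if Function.update φ p j = ψ then μ φ / (A φ).card else 0
      -- expectation formula
      have hE : ∀ f : (V → Fin (m + e)) → ℝ,
          ∑ ψ, ν ψ * f ψ = ∑ φ, ∑ j ∈ A φ, μ φ / (A φ).card * f (Function.update φ p j) := by
        intro f
        simp only [ν, Finset.sum_mul]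
        rw [Finset.sum_comm]
        refine Finset.sum_congr rfl fun φ _ => ?_
        rw [Finset.sum_comm]
        refine Finset.sum_congr rfl fun j _ => ?_
        simp [ite_mul]
      refine ⟨ν, ?_, ?_, ?_, ?_⟩
      · intro ψ
        refine Finset.sum_nonneg fun φ _ => Finset.sum_nonneg fun j _ => ?_
        split_ifs
        · exact div_nonneg (h0 φ) (hApos φ).le
        · exact le_refl _
      · have := hE (fun _ => 1)
        simp only [mul_one] at this
        rw [this, ← h1]
        refine Finset.sum_congr rfl fun φ _ => ?_
        rw [Finset.sum_const, nsmul_eq_mul]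
        field_simp [(hApos φ).ne']
      · intro ψ hψ v hv w hw
        -- some φ, j contribute
        have : ∃ φ, ∃ j ∈ A φ, Function.update φ p j = ψ ∧ μ φ ≠ 0 := by
          by_contra hcon
          push Not at hcon
          apply hψ
          refine Finset.sum_eq_zero fun φ _ => Finset.sum_eq_zero fun j hj => ?_
          split_ifs with h
          · rw [hcon φ j hj h, zero_div]
          · rfl
        obtain ⟨φ, j, hj, hupd, hμ⟩ := this
        have hwv := hW v w hw
        by_cases hvp : v = p
        · subst hvp
          have hwne : w ≠ v := by rintro rfl; omega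
          rw [← hupd, Function.update_self, Function.update_of_ne hwne]
          intro hcon
          simp only [A, Finset.mem_sdiff, Finset.mem_univ, true_and, Finset.mem_image,
            not_exists, not_and] at hj
          exact hj w hw hcon
        · have hvk : r v < k := by
            have : r v ≠ k := fun h => hvp (hr (h.trans hp.symm))
            omega
          have hwne : w ≠ p := by rintro rfl; omega
          rw [← hupd, Function.update_of_ne hvp, Function.update_of_ne hwne]
          exact h2 φ hμ v hvk w hw
      · -- pair bound
        have hpair : ∀ x, x ≠ p → ∑ ψ, (if ψ x = ψ p then ν ψ else 0) ≤ 1 / (e : ℝ) := by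
          intro x hxp
          have h4 := hE (fun ψ => if ψ x = ψ p then 1 else 0)
          simp only [mul_ite, mul_one, mul_zero] at h4
          rw [h4]
          calc ∑ φ, ∑ j ∈ A φ, (if (Function.update φ p j) x = (Function.update φ p j) p
                  then μ φ / (A φ).card else 0)
              ≤ ∑ φ, μ φ * (1 / (e : ℝ)) := by
                refine Finset.sum_le_sum fun φ _ => ?_
                have h5 : ∑ j ∈ A φ, (if (Function.update φ p j) x = (Function.update φ p j) p
                  then μ φ / (A φ).card else 0) ≤ μ φ / (A φ).card := by
                  have h6 : ∀ j, (Function.update φ p j) x = φ x := fun j =>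
                    Function.update_of_ne hxp _ _
                  have h7 : ∀ j : Fin (m + e), (Function.update φ p j) p = j := fun j =>
                    Function.update_self _ _ _
                  simp only [h6, h7]
                  rw [Finset.sum_ite_eq]
                  split_ifs
                  · exact le_refl _
                  · exact div_nonneg (h0 φ) (hApos φ).le
                refine le_trans h5 ?_
                rw [div_eq_mul_one_div]
                refine mul_le_mul_of_nonneg_left ?_ (h0 φ)
                apply one_div_le_one_div_of_le hepos
                exact_mod_cast hA φ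
            _ = 1 / (e : ℝ) := by rw [← Finset.sum_mul, h1, one_mul]
        intro x y hxy hx hy
        by_cases hyp : y = p
        · subst hyp
          exact hpair x hxy
        by_cases hxp : x = p
        · subst hxp
          have h4 := hpair y (Ne.symm hxy)
          simpa [eq_comm] using h4
        · have hxk : r x < k := by
            have : r x ≠ k := fun h => hxp (hr (h.trans hp.symm))
            omega
          have hyk : r y < k := by
            have : r y ≠ k := fun h => hyp (hr (h.trans hp.symm))
            omega
          have h4 := hE (fun ψ => if ψ x = ψ y then 1 else 0)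
          simp only [mul_ite, mul_one, mul_zero] at h4
          rw [h4]
          refine le_trans (le_of_eq ?_) (h3 x y hxy hxk hyk)
          refine Finset.sum_congr rfl fun φ _ => ?_
          have h6 : ∀ j, (Function.update φ p j) x = φ x := fun j =>
            Function.update_of_ne hxp _ _
          have h7 : ∀ j, (Function.update φ p j) y = φ y := fun j =>
            Function.update_of_ne hyp _ _
          simp only [h6, h7]
          rw [Finset.sum_const, nsmul_eq_mul]
          split_ifs
          · field_simp [(hApos φ).ne']
          · simp
    · push Not at hp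
      refine ⟨μ, h0, h1, ?_, ?_⟩
      · intro φ hφ v hv w hw
        have := hp v
        exact h2 φ hφ v (by omega) w hw
      · intro x y hxy hx hy
        have := hp x
        have := hp y
        exact h3 x y hxy (by omega) (by omega)

end Random

end Pool.Agent.Helper7.KS
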