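import Pool.Agent.Helper7.KS.Hash

set_option autoImplicit false
open Classical

namespace Pool.Agent.Helper7.KS

variable {V : Type} [Fintype V]

theorem hit_bound {h n L : ℕ} {x : ℝ} (hx : 0 ≤ x) (hn : n < 2 ^ L)
    (hh : (2 : ℝ) ^ h ≤ (n : ℝ) * Real.exp x) : h ≤ L + ⌈3 * x / 2⌉₊ := by
  by_contra hcon
  push Not at hcon
  have h1 : Real.exp x ≤ (2 : ℝ) ^ ⌈3 * x / 2⌉₊ := by
    have h2 : (3 * x / 2 : ℝ) ≤ (⌈3 * x / 2⌉₊ : ℝ) := Nat.le_ceil _
    have h3 : (2 : ℝ) ^ ⌈3 * x / 2⌉₊ = Real.exp (Real.log 2 * (⌈3 * x / 2⌉₊ : ℝ)) := by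
      rw [← Real.rpow_natCast, Real.rpow_def_of_pos (by norm_num)]
    rw [h3]
    apply Real.exp_le_exp.mpr
    have h4 := Real.log_two_gt_d9
    nlinarith
  have h5 : (n : ℝ) < 2 ^ L := by exact_mod_cast hn
  have h6 : (n : ℝ) * Real.exp x ≤ 2 ^ L * (2 : ℝ) ^ ⌈3 * x / 2⌉₊ :=
    mul_le_mul h5.le h1 (Real.exp_pos x).le (by positivity)
  rw [← pow_add] at h6
  have h7 : (2 : ℝ) ^ (L + ⌈3 * x / 2⌉₊) < 2 ^ h := pow_lt_pow_right₀ (by norm_num) hcon
  linarith

theorem colour_bound {k : ℕ} {m : Fin k → ℕ} (G : SimpleGraph V) (H : Fin k → SimpleGraph V)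
    (h : ∀ i, ∀ S : Finset V, S.Nonempty →
          ∃ v ∈ S, (S.filter (fun w => (H i).Adj v w)).card ≤ m i)
    (hG : G = ⨆ i, H i) (i₀ : Fin k) (L e : ℕ) (he : 0 < e) (hL : Fintype.card V < 2 ^ L) :
    G.Colorable (∑ i, m i + e + L * (2 * (L + ⌈3 * ((((∑ i, m i : ℕ) : ℝ)
      * ((∑ i ∈ Finset.univ.erase i₀, m i : ℕ) : ℝ)) / e) / 2⌉₊))) := by
  rcases isEmpty_or_nonempty V with hV | hV
  · exact ⟨SimpleGraph.Coloring.mk (fun v => isEmptyElim v) (fun {v} => isEmptyElim v)⟩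
  have hLpos : 0 < L := by
    rcases Nat.eq_zero_or_pos L with h0 | h0
    · subst h0
      have := Fintype.card_pos (α := V)
      omega
    · exact h0
  obtain ⟨r, hr1, hr2⟩ := composed_ranks H h
  set t := ∑ i ∈ Finset.univ.erase i₀, m i with ht
  have hM : ∑ i, m i = m i₀ + t := (Finset.add_sum_erase _ _ (Finset.mem_univ i₀)).symm
  set M := ∑ i, m i with hMdef
  set N := L + ⌈3 * (((M : ℝ) * (t : ℝ)) / e) / 2⌉₊ with hN
  have hNpos : 0 < N := by omega
  let P : V → Finset V := backs H r (Finset.univ.erase i₀)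
  have hPself : ∀ v, v ∉ P v := not_mem_backs H r _
  have hPc : ∀ v, (P v).card ≤ t := fun v => back_card hr2 _ v
  let W0 : V → Finset V := back H r i₀
  have hW0c : ∀ v, (W0 v).card ≤ m i₀ := fun v => hr2 i₀ v
  have hW0 : ∀ v, ∀ w ∈ W0 v, r i₀ w < r i₀ v := by
    intro v w hw
    simp only [W0, back, Finset.mem_filter] at hw
    exact hw.2.2
  let Pe : V → Finset V := fun v => (P v).filter (fun p => r i₀ p < r i₀ v)
  let Pl : V → Finset V := fun v => (P v).filter (fun p => r i₀ v < r i₀ p)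
  let W : V → Finset V := fun v => W0 v ∪ Pe v
  let B : V → Finset V := fun v => W0 v ∪ P v
  have hW : ∀ v, ∀ w ∈ W v, r i₀ w < r i₀ v := by
    intro v w hw
    rcases Finset.mem_union.mp hw with h1 | h1
    · exact hW0 v w h1
    · exact (Finset.mem_filter.mp h1).2
  have hPl : ∀ v, ∀ p ∈ Pl v, r i₀ v < r i₀ p := fun v p hp => (Finset.mem_filter.mp hp).2
  have hWc : ∀ v, (W v).card ≤ M := by
    intro v
    refine le_trans (Finset.card_union_le _ _) ?_
    rw [hM]
    exact Nat.add_le_add (hW0c v) (le_trans (Finset.card_le_card (Finset.filter_subset _ _)) (hPc v))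
  have hBc : ∀ v, (B v).card ≤ M := by
    intro v
    refine le_trans (Finset.card_union_le _ _) ?_
    rw [hM]
    exact Nat.add_le_add (hW0c v) (hPc v)
  have hPlc : ∀ v, (Pl v).card ≤ t := fun v =>
    le_trans (Finset.card_le_card (Finset.filter_subset _ _)) (hPc v)
  obtain ⟨φ, hφ1, hφ2⟩ := greedy_hits (r i₀) (hr1 i₀) W Pl B hW hPl M t M e he hWc hPlc hBc
  have hhit : ∀ v, (hit B Pl φ v).card ≤ N := fun v =>
    hit_bound (by positivity) hL (hφ2 v)
  -- the conflict vertices and their keys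
  let Bad : V → Prop := fun u => ∃ p ∈ Pl u, φ u = φ p
  have hkey : ∀ u, ∃ x : V, Bad u → (x ∈ Pl u ∧ φ u = φ x ∧
      ∀ y ∈ Pl u, φ u = φ y → r i₀ x ≤ r i₀ y) := by
    intro u
    by_cases hu : Bad u
    · obtain ⟨p, hp, hpu⟩ := hu
      obtain ⟨x, hx, hxmin⟩ := Finset.exists_min_image ((Pl u).filter (fun p => φ u = φ p)) (r i₀)
        ⟨p, Finset.mem_filter.mpr ⟨hp, hpu⟩⟩
      refine ⟨x, fun _ => ⟨(Finset.mem_filter.mp hx).1, (Finset.mem_filter.mp hx).2, ?_⟩⟩
      intro y hy hyu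
      exact hxmin y (Finset.mem_filter.mpr ⟨hy, hyu⟩)
    · exact ⟨u, fun hh => absurd hh hu⟩
  choose κ hκ using hkey
  let U : Finset V := Finset.univ.filter Bad
  let K : V → Finset V := fun u => ((B u).filter Bad).image κ
  have hKc : ∀ u ∈ U, (K u).card ≤ N := by
    intro u _
    refine le_trans (Finset.card_le_card ?_) (hhit u)
    intro b hb
    obtain ⟨w, hw, rfl⟩ := Finset.mem_image.mp hb
    rw [Finset.mem_filter] at hw
    obtain ⟨h1, h2, -⟩ := hκ w hw.2
    simp only [hit, Finset.mem_filter, Finset.mem_univ, true_and]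
    exact ⟨w, hw.1, h1, h2⟩
  have hmemW : ∀ x y, G.Adj x y → x ∈ B y ∨ y ∈ B x := by
    intro a b hab
    rw [hG, SimpleGraph.iSup_adj] at hab
    obtain ⟨i, hi⟩ := hab
    by_cases hii : i = i₀
    · subst hii
      rcases mem_back_or hr1 hi with h1 | h1
      · exact Or.inl (Finset.mem_union_left _ h1)
      · exact Or.inr (Finset.mem_union_left _ h1)
    · have hmem : i ∈ Finset.univ.erase i₀ := Finset.mem_erase.mpr ⟨hii, Finset.mem_univ i⟩
      rcases mem_back_or hr1 hi with h1 | h1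
      · exact Or.inl (Finset.mem_union_right _ (Finset.mem_biUnion.mpr ⟨i, hmem, h1⟩))
      · exact Or.inr (Finset.mem_union_right _ (Finset.mem_biUnion.mpr ⟨i, hmem, h1⟩))
  -- an element of `B u` is in `W u` or in `Pl u`
  have hBsplit : ∀ u, ∀ w ∈ B u, w ∈ W u ∨ w ∈ Pl u := by
    intro u w hw
    rcases Finset.mem_union.mp hw with h1 | h1
    · exact Or.inl (Finset.mem_union_left _ h1)
    · have hne : r i₀ w ≠ r i₀ u := by
        intro hh
        have := hr1 i₀ hh
        subst this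
        exact hPself w h1
      rcases lt_or_gt_of_ne hne with h2 | h2
      · exact Or.inl (Finset.mem_union_right _ (Finset.mem_filter.mpr ⟨h1, h2⟩))
      · exact Or.inr (Finset.mem_filter.mpr ⟨h1, h2⟩)
  have hκK : ∀ u ∈ U, κ u ∉ K u := by
    intro u hu hcon
    have hub : Bad u := (Finset.mem_filter.mp hu).2
    obtain ⟨w, hw, hwu⟩ := Finset.mem_image.mp hcon
    rw [Finset.mem_filter] at hw
    obtain ⟨h1, h2, h3⟩ := hκ w hw.2
    obtain ⟨h4, h5, h6⟩ := hκ u hub
    have hcol : φ w = φ u := by rw [h2, h5, hwu]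
    rcases hBsplit u w hw.1 with h7 | h7
    · exact hφ1 u w h7 hcol
    · have h8 := h6 w h7 hcol.symm
      have h9 := hPl w (κ w) h1
      rw [hwu] at h9
      omega
  obtain ⟨l, hl⟩ := hash_all κ K N hNpos L U hKc hκK
    (lt_of_le_of_lt (Finset.card_le_univ U) hL)
  have hidx : ∀ u, ∃ i : Fin L, Bad u → ∀ b ∈ K u, l i (κ u) ≠ l i b := by
    intro u
    by_cases hu : Bad u
    · obtain ⟨i, hi⟩ := hl u (Finset.mem_filter.mpr ⟨Finset.mem_univ u, hu⟩)
      exact ⟨i, fun _ => hi⟩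
    · exact ⟨⟨0, hLpos⟩, fun hh => absurd hh hu⟩
  choose ι hι using hidx
  let χ : V → Fin (M + e) ⊕ (Fin L × Fin (2 * N)) := fun u =>
    if Bad u then Sum.inr (ι u, l (ι u) (κ u)) else Sum.inl (φ u)
  have hprop : ∀ x y, x ∈ B y → χ x ≠ χ y := by
    intro x y hxy hcon
    by_cases hx : Bad x
    · by_cases hy : Bad y
      · simp only [χ, if_pos hx, if_pos hy, Sum.inr.injEq, Prod.mk.injEq] at hcon
        have hxK : κ x ∈ K y := Finset.mem_image.mpr ⟨x, Finset.mem_filter.mpr ⟨hxy, hx⟩, rfl⟩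
        have := hι y hy (κ x) hxK
        rw [← hcon.1] at this
        apply this
        rw [hcon.2, hcon.1]
      · simp only [χ, if_pos hx, if_neg hy] at hcon
        exact absurd hcon (by simp)
    · by_cases hy : Bad y
      · simp only [χ, if_neg hx, if_pos hy] at hcon
        exact absurd hcon (by simp)
      · simp only [χ, if_neg hx, if_neg hy, Sum.inl.injEq] at hcon
        rcases hBsplit y x hxy with h1 | h1
        · exact hφ1 y x h1 hcon
        · exact hy ⟨x, h1, hcon.symm⟩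
  have hcol : G.Coloring (Fin (M + e) ⊕ (Fin L × Fin (2 * N))) :=
    SimpleGraph.Coloring.mk χ (by
      intro x y hxy
      rcases hmemW x y hxy with h1 | h1
      · exact hprop x y h1
      · exact (hprop y x h1).symm)
  have := hcol.colorable
  simpa using this

end Pool.Agent.Helper7.KS
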