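import Pool.Agent.Helper7.KS.Frac

set_option autoImplicit false
open Classical

namespace Pool.Agent.Helper7.KS

variable {V : Type} [Fintype V]

/-- data extracted from a composed graph: rankings of all the pieces. -/
theorem composed_ranks {k : ℕ} {m : Fin k → ℕ} (H : Fin k → SimpleGraph V)
    (h : ∀ i, ∀ S : Finset V, S.Nonempty →
          ∃ v ∈ S, (S.filter (fun w => (H i).Adj v w)).card ≤ m i) :
    ∃ r : Fin k → V → ℕ, (∀ i, Function.Injective (r i)) ∧
      ∀ i v, (Finset.univ.filter (fun w => (H i).Adj v w ∧ r i w < r i v)).card ≤ m i := by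
  choose r hr using fun i => degen_rank (H i) (m i) (h i)
  exact ⟨r, fun i => (hr i).1, fun i => (hr i).2⟩

/-- back-neighbourhood in one piece -/
noncomputable def back {k : ℕ} (H : Fin k → SimpleGraph V) (r : Fin k → V → ℕ) (i : Fin k) (v : V) :
    Finset V := Finset.univ.filter (fun w => (H i).Adj v w ∧ r i w < r i v)

/-- union of back-neighbourhoods over the pieces in `T` -/
noncomputable def backs {k : ℕ} (H : Fin k → SimpleGraph V) (r : Fin k → V → ℕ)
    (T : Finset (Fin k)) (v : V) : Finset V := T.biUnion (fun i => back H r i v)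

theorem back_card {k : ℕ} {m : Fin k → ℕ} {H : Fin k → SimpleGraph V} {r : Fin k → V → ℕ}
    (hr : ∀ i v, (Finset.univ.filter (fun w => (H i).Adj v w ∧ r i w < r i v)).card ≤ m i)
    (T : Finset (Fin k)) (v : V) : (backs H r T v).card ≤ ∑ i ∈ T, m i :=
  le_trans Finset.card_biUnion_le (Finset.sum_le_sum fun i _ => hr i v)

theorem not_mem_backs {k : ℕ} (H : Fin k → SimpleGraph V) (r : Fin k → V → ℕ)
    (T : Finset (Fin k)) (v : V) : v ∉ backs H r T v := by
  intro h
  simp [backs, back] at h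

theorem mem_back_or {k : ℕ} {H : Fin k → SimpleGraph V} {r : Fin k → V → ℕ}
    (hr : ∀ i, Function.Injective (r i)) {i : Fin k} {x y : V} (h : (H i).Adj x y) :
    x ∈ back H r i y ∨ y ∈ back H r i x := by
  have hne : r i x ≠ r i y := fun hh => h.ne (hr i hh)
  rcases lt_or_gt_of_ne hne with h1 | h1
  · left
    simp only [back, Finset.mem_filter, Finset.mem_univ, true_and]
    exact ⟨h.symm, h1⟩
  · right
    simp only [back, Finset.mem_filter, Finset.mem_univ, true_and]
    exact ⟨h, h1⟩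

/-- the bound with the piece `i₀` as main piece and the parameter `x`. -/
theorem frac_main {k : ℕ} {m : Fin k → ℕ} (G : SimpleGraph V) (H : Fin k → SimpleGraph V)
    (h : ∀ i, ∀ S : Finset V, S.Nonempty →
          ∃ v ∈ S, (S.filter (fun w => (H i).Adj v w)).card ≤ m i)
    (hG : G = ⨆ i, H i) (i₀ : Fin k) :
    FracColorable G ((Real.sqrt ((∑ i, m i : ℕ) : ℝ)
      + Real.sqrt ((∑ i ∈ Finset.univ.erase i₀, m i : ℕ) : ℝ)) ^ 2 + 1) := by
  obtain ⟨r, hr1, hr2⟩ := composed_ranks H h
  set t := ∑ i ∈ Finset.univ.erase i₀, m i with ht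
  have hM : ∑ i, m i = m i₀ + t := (Finset.add_sum_erase _ _ (Finset.mem_univ i₀)).symm
  rw [hM]
  set q : ℝ := Real.sqrt (((m i₀ + t : ℕ) : ℝ) * t) with hq
  have hq0 : 0 ≤ q := Real.sqrt_nonneg _
  set x : ℕ := ⌊q⌋₊ + 1 with hx
  have hx1 : q < x := by
    rw [hx]; push_cast; exact Nat.lt_floor_add_one q
  have hx2 : (x : ℝ) ≤ q + 1 := by
    rw [hx]; push_cast; linarith [Nat.floor_le hq0]
  have hx0 : (0 : ℝ) < x := lt_of_le_of_lt hq0 hx1
  have hfrac := frac_of_parents G (r i₀) (hr1 i₀) (back H r i₀) (backs H r (Finset.univ.erase i₀))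
    (by
      intro v w hw
      simp only [back, Finset.mem_filter] at hw
      exact hw.2.2)
    (not_mem_backs H r _) (m i₀) t (t + x) (by omega)
    (fun v => hr2 i₀ v) (fun v => back_card hr2 _ v)
    (by
      intro a b hab
      rw [hG, SimpleGraph.iSup_adj] at hab
      obtain ⟨i, hi⟩ := hab
      by_cases hii : i = i₀
      · subst hii
        rcases mem_back_or hr1 hi with h1 | h1
        · exact Or.inl h1
        · exact Or.inr (Or.inl h1)
      · have hmem : i ∈ Finset.univ.erase i₀ := Finset.mem_erase.mpr ⟨hii, Finset.mem_univ i⟩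
        rcases mem_back_or hr1 hi with h1 | h1
        · exact Or.inr (Or.inr (Or.inl (Finset.mem_biUnion.mpr ⟨i, hmem, h1⟩)))
        · exact Or.inr (Or.inr (Or.inr (Finset.mem_biUnion.mpr ⟨i, hmem, h1⟩))))
  refine hfrac.mono ?_
  have hMt : (0 : ℝ) ≤ ((m i₀ + t : ℕ) : ℝ) * t := by positivity
  have hqq : q * q = ((m i₀ + t : ℕ) : ℝ) * t := Real.mul_self_sqrt hMt
  have h1 : (Real.sqrt ((m i₀ + t : ℕ) : ℝ) + Real.sqrt (t : ℝ)) ^ 2
      = ((m i₀ + t : ℕ) : ℝ) + t + 2 * q := by
    rw [add_sq, Real.sq_sqrt (by positivity), Real.sq_sqrt (by positivity), hq,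
      Real.sqrt_mul (by positivity)]
    ring
  rw [h1]
  have h2 : ((m i₀ : ℝ) + ((t + x : ℕ) : ℝ)) * (((t + x : ℕ) : ℝ) / (((t + x : ℕ) : ℝ) - t))
      = ((m i₀ + t : ℕ) : ℝ) + t + x + q * q / x := by
    rw [hqq]
    push_cast
    have : (t : ℝ) + x - t = x := by ring
    rw [this]
    field_simp
    ring
  rw [h2]
  have h3 : q * q / x ≤ q := by
    rw [div_le_iff₀ hx0]
    exact mul_le_mul_of_nonneg_left hx1.le hq0
  linarith

/-- a composed graph is `2M`-degenerate. -/
theorem two_M_degenerate {k : ℕ} {m : Fin k → ℕ} (G : SimpleGraph V) (H : Fin k → SimpleGraph V)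
    (h : ∀ i, ∀ S : Finset V, S.Nonempty →
          ∃ v ∈ S, (S.filter (fun w => (H i).Adj v w)).card ≤ m i)
    (hG : G = ⨆ i, H i) (S : Finset V) (hS : S.Nonempty) :
    ∃ v ∈ S, (S.filter (fun w => G.Adj v w)).card ≤ 2 * ∑ i, m i := by
  obtain ⟨r, hr1, hr2⟩ := composed_ranks H h
  set Q : V → Finset V := backs H r Finset.univ with hQ
  have hQc : ∀ v, (Q v).card ≤ ∑ i, m i := fun v => back_card hr2 _ v
  have hadj : ∀ v w, G.Adj v w → w ∈ Q v ∨ v ∈ Q w := by
    intro v w hvw
    rw [hG, SimpleGraph.iSup_adj] at hvw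
    obtain ⟨i, hi⟩ := hvw
    rcases mem_back_or hr1 hi with h1 | h1
    · exact Or.inr (Finset.mem_biUnion.mpr ⟨i, Finset.mem_univ i, h1⟩)
    · exact Or.inl (Finset.mem_biUnion.mpr ⟨i, Finset.mem_univ i, h1⟩)
  by_contra hcon
  push Not at hcon
  have h1 : ∑ v ∈ S, (S.filter (fun w => G.Adj v w)).card ≤ ∑ v ∈ S, 2 * ∑ i, m i := by
    calc ∑ v ∈ S, (S.filter (fun w => G.Adj v w)).card
        ≤ ∑ v ∈ S, ((S.filter (fun w => w ∈ Q v)).card + (S.filter (fun w => v ∈ Q w)).card) := by
          refine Finset.sum_le_sum fun v _ => ?_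
          refine le_trans (Finset.card_le_card ?_) (Finset.card_union_le _ _)
          intro w hw
          rw [Finset.mem_filter] at hw
          rw [Finset.mem_union, Finset.mem_filter, Finset.mem_filter]
          rcases hadj v w hw.2 with h2 | h2
          · exact Or.inl ⟨hw.1, h2⟩
          · exact Or.inr ⟨hw.1, h2⟩
      _ = ∑ v ∈ S, (S.filter (fun w => w ∈ Q v)).card
            + ∑ v ∈ S, (S.filter (fun w => v ∈ Q w)).card := Finset.sum_add_distrib
      _ = ∑ v ∈ S, (S.filter (fun w => w ∈ Q v)).card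
            + ∑ v ∈ S, (S.filter (fun w => w ∈ Q v)).card := by
          congr 1
          simp only [Finset.card_filter]
          rw [Finset.sum_comm]
      _ ≤ ∑ v ∈ S, (∑ i, m i) + ∑ v ∈ S, (∑ i, m i) := by
          have : ∑ v ∈ S, (S.filter (fun w => w ∈ Q v)).card ≤ ∑ v ∈ S, (∑ i, m i) := by
            refine Finset.sum_le_sum fun v _ => ?_
            refine le_trans (Finset.card_le_card ?_) (hQc v)
            intro w hw
            exact (Finset.mem_filter.mp hw).2
          omega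
      _ = ∑ v ∈ S, 2 * ∑ i, m i := by
          rw [← Finset.sum_add_distrib]
          refine Finset.sum_congr rfl fun v _ => ?_
          ring
  have h2 : ∑ v ∈ S, 2 * ∑ i, m i < ∑ v ∈ S, (S.filter (fun w => G.Adj v w)).card :=
    Finset.sum_lt_sum_of_nonempty hS hcon
  omega

theorem frac_trivial {k : ℕ} {m : Fin k → ℕ} (G : SimpleGraph V) (H : Fin k → SimpleGraph V)
    (h : ∀ i, ∀ S : Finset V, S.Nonempty →
          ∃ v ∈ S, (S.filter (fun w => (H i).Adj v w)).card ≤ m i)
    (hG : G = ⨆ i, H i) : FracColorable G (2 * ((∑ i, m i : ℕ) : ℝ) + 1) := by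
  obtain ⟨r, hr1, hr2⟩ := degen_rank G _ (two_M_degenerate G H h hG)
  have := frac_of_parents G r hr1 (fun v => Finset.univ.filter (fun w => G.Adj v w ∧ r w < r v))
    (fun _ => ∅) (by
      intro v w hw
      rw [Finset.mem_filter] at hw
      exact hw.2.2) (by simp) (2 * ∑ i, m i) 0 1 (by norm_num) hr2 (by simp)
    (by
      intro a b hab
      have hne : r a ≠ r b := fun hh => hab.ne (hr1 hh)
      rcases lt_or_gt_of_ne hne with h1 | h1
      · left
        simp only [Finset.mem_filter, Finset.mem_univ, true_and]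
        exact ⟨hab.symm, h1⟩
      · right; left
        simp only [Finset.mem_filter, Finset.mem_univ, true_and]
        exact ⟨hab, h1⟩)
  refine this.mono ?_
  push_cast
  norm_num

end Pool.Agent.Helper7.KS
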