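import Pool.Agent.Helper7.KS.Colour

set_option autoImplicit false
open Classical

namespace Pool.Agent.Helper7.KS

variable {V : Type} [Fintype V]

theorem colour_sigma {k : ℕ} (m : Fin k → ℕ) (G : SimpleGraph V) (H : Fin k → SimpleGraph V)
    (h : ∀ i, ∀ S : Finset V, S.Nonempty →
          ∃ v ∈ S, (S.filter (fun w => (H i).Adj v w)).card ≤ m i)
    (hG : G = ⨆ i, H i) (L : ℕ) (hL : Fintype.card V < 2 ^ L) :
    G.Colorable (∑ i, m i + ⌊4 * Real.sqrt (2 * (L : ℝ)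
      * (((∑ i, ∑ j, if i < j then m i * m j else 0 : ℕ)) : ℝ))⌋₊ + 2 * L ^ 2 + 2 * L + 1) := by
  rcases isEmpty_or_nonempty V with hV | hV
  · exact ⟨SimpleGraph.Coloring.mk (fun v => isEmptyElim v) (fun {v} => isEmptyElim v)⟩
  rcases Nat.eq_zero_or_pos k with hk | hk
  · subst hk
    have hG0 : G = ⊥ := by rw [hG]; simp
    rw [hG0]
    refine ⟨SimpleGraph.Coloring.mk (fun _ => ⟨0, by omega⟩) ?_⟩
    intro a b hab
    exact absurd hab (by simp)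
  have hLpos : 0 < L := by
    rcases Nat.eq_zero_or_pos L with h0 | h0
    · subst h0
      have := Fintype.card_pos (α := V)
      omega
    · exact h0
  have : Nonempty (Fin k) := ⟨⟨0, hk⟩⟩
  obtain ⟨i₀, hmax⟩ := Finite.exists_max m
  have ha := mt_le m i₀ hmax
  set σ := (∑ i, ∑ j, if i < j then m i * m j else 0 : ℕ)
  set t := ∑ i ∈ Finset.univ.erase i₀, m i with ht
  set M := ∑ i, m i with hM
  set q : ℝ := Real.sqrt ((M : ℝ) * t * L) with hq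
  have hq0 : 0 ≤ q := Real.sqrt_nonneg _
  have hqq : q * q = (M : ℝ) * t * L := Real.mul_self_sqrt (by positivity)
  set e : ℕ := ⌊q⌋₊ + 1 with he
  have he1 : q < e := by
    rw [he]; push_cast; exact Nat.lt_floor_add_one q
  have he2 : (e : ℝ) ≤ q + 1 := by
    rw [he]; push_cast; linarith [Nat.floor_le hq0]
  have hepos : (0 : ℝ) < e := lt_of_le_of_lt hq0 he1
  have hmain := colour_bound G H h hG i₀ L e (by omega) hL
  rw [← hM, ← ht] at hmain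
  refine hmain.mono ?_
  have hLr : (0 : ℝ) < L := by exact_mod_cast hLpos
  -- the ceiling term
  have hc : ((⌈3 * ((M : ℝ) * (t : ℝ) / e) / 2⌉₊ : ℕ) : ℝ) ≤ 3 / 2 * (q / L) + 1 := by
    have h1 : (0 : ℝ) ≤ 3 * ((M : ℝ) * (t : ℝ) / e) / 2 := by positivity
    have h2 := (Nat.ceil_lt_add_one h1).le
    refine h2.trans ?_
    have h3 : (M : ℝ) * t / e ≤ q / L := by
      rw [div_le_div_iff₀ hepos hLr, ← hqq]
      exact mul_le_mul_of_nonneg_left he1.le hq0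
    linarith
  have hreal : ((M + e + L * (2 * (L + ⌈3 * ((M : ℝ) * (t : ℝ) / e) / 2⌉₊)) : ℕ) : ℝ)
      ≤ M + 4 * q + 2 * L ^ 2 + 2 * L + 1 := by
    push_cast
    have h4 : (L : ℝ) * (2 * (L + (⌈3 * ((M : ℝ) * (t : ℝ) / e) / 2⌉₊ : ℝ)))
        ≤ L * (2 * (L + (3 / 2 * (q / L) + 1))) := by
      apply mul_le_mul_of_nonneg_left _ hLr.le
      linarith
    have h5 : (L : ℝ) * (2 * (L + (3 / 2 * (q / L) + 1))) = 2 * L ^ 2 + 3 * q + 2 * L := by
      field_simp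
      ring
    linarith
  have hqσ : 4 * q ≤ 4 * Real.sqrt (2 * (L : ℝ) * (σ : ℝ)) := by
    apply mul_le_mul_of_nonneg_left _ (by norm_num)
    apply Real.sqrt_le_sqrt
    have h6 : (M : ℝ) * t ≤ 2 * σ := by exact_mod_cast ha
    nlinarith
  have h7 : M + e + L * (2 * (L + ⌈3 * ((M : ℝ) * (t : ℝ) / e) / 2⌉₊))
      ≤ M + 2 * L ^ 2 + 2 * L + 1 + ⌊4 * Real.sqrt (2 * (L : ℝ) * (σ : ℝ))⌋₊ := by
    by_contra hcon
    push Not at hcon
    have h8 : M + 2 * L ^ 2 + 2 * L + 1 + (⌊4 * Real.sqrt (2 * (L : ℝ) * (σ : ℝ))⌋₊ + 1)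
        ≤ M + e + L * (2 * (L + ⌈3 * ((M : ℝ) * (t : ℝ) / e) / 2⌉₊)) := by omega
    have h9 : ((M + 2 * L ^ 2 + 2 * L + 1
        + (⌊4 * Real.sqrt (2 * (L : ℝ) * (σ : ℝ))⌋₊ + 1) : ℕ) : ℝ)
        ≤ ((M + e + L * (2 * (L + ⌈3 * ((M : ℝ) * (t : ℝ) / e) / 2⌉₊)) : ℕ) : ℝ) := by
      exact_mod_cast h8
    have h10 := Nat.lt_floor_add_one (4 * Real.sqrt (2 * (L : ℝ) * (σ : ℝ)))
    push_cast at h9 hreal
    linarith
  omega

end Pool.Agent.Helper7.KS
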