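import Pool.Agent.Helper7.KS.Basic

set_option autoImplicit false
open Classical

namespace Pool.Agent.Helper7.KS

variable {V : Type} [Fintype V]

/-- `D` is `m`-degenerate (through the ranking `r`), the other edges are given by parent sets
of size at most `t`; then `G` has a fractional colouring of weight `(m+e) e / (e-t)`. -/
theorem frac_of_parents (G : SimpleGraph V) (r : V → ℕ) (hr : Function.Injective r)
    (W P : V → Finset V) (hW : ∀ v, ∀ w ∈ W v, r w < r v) (hP : ∀ v, v ∉ P v)
    (m t e : ℕ) (hte : t < e) (hWc : ∀ v, (W v).card ≤ m) (hPc : ∀ v, (P v).card ≤ t)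
    (hG : ∀ x y, G.Adj x y → x ∈ W y ∨ y ∈ W x ∨ x ∈ P y ∨ y ∈ P x) :
    FracColorable G (((m : ℝ) + e) * (e / ((e : ℝ) - t))) := by
  have he : 0 < e := by omega
  have hepos : (0 : ℝ) < e := by exact_mod_cast he
  have htpos : (0 : ℝ) < (e : ℝ) - t := by
    have : (t : ℝ) < e := by exact_mod_cast hte
    linarith
  -- a bound on the ranks
  obtain ⟨K, hK⟩ : ∃ K : ℕ, ∀ v, r v < K := by
    refine ⟨∑ v, r v + 1, fun v => ?_⟩
    have := Finset.single_le_sum (f := r) (fun i _ => Nat.zero_le _) (Finset.mem_univ v)
    omega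
  obtain ⟨μ, h0, h1, h2, h3⟩ := random_greedy r hr W hW m e he hWc K
  -- the surviving part of colour class `j`
  let I : (V → Fin (m + e)) → Fin (m + e) → Finset V := fun φ j =>
    Finset.univ.filter (fun u => φ u = j ∧ ∀ p ∈ P u, φ p ≠ φ u)
  let s : ℝ := e / ((e : ℝ) - t)
  have hs : 0 < s := div_pos hepos htpos
  let w : Finset V → ℝ := fun S => s * ∑ φ, ∑ j, if I φ j = S then μ φ else 0
  have hsum : ∀ f : Finset V → ℝ, ∑ S, w S * f S = s * ∑ φ, ∑ j, μ φ * f (I φ j) := by
    intro f
    have h5 : ∑ S, w S * f S = ∑ S, s * ((∑ φ, ∑ j, if I φ j = S then μ φ else 0) * f S) :=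
      Finset.sum_congr rfl fun S _ => by simp only [w]; ring
    rw [h5, ← Finset.mul_sum]
    congr 1
    simp only [Finset.sum_mul]
    rw [Finset.sum_comm]
    refine Finset.sum_congr rfl fun φ _ => ?_
    rw [Finset.sum_comm]
    refine Finset.sum_congr rfl fun j _ => ?_
    simp [ite_mul]
  refine ⟨w, ?_, ?_, ?_, ?_⟩
  · intro S
    refine mul_nonneg hs.le (Finset.sum_nonneg fun φ _ => Finset.sum_nonneg fun j _ => ?_)
    split_ifs
    · exact h0 φ
    · exact le_refl _
  · intro S hS a ha b hb hab
    have : ∃ φ, ∃ j, I φ j = S ∧ μ φ ≠ 0 := by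
      by_contra hcon
      push Not at hcon
      apply hS
      simp only [w]
      rw [Finset.sum_eq_zero, mul_zero]
      intro φ _
      refine Finset.sum_eq_zero fun j _ => ?_
      split_ifs with h
      · exact hcon φ j h
      · rfl
    obtain ⟨φ, j, hI, hμ⟩ := this
    rw [← hI] at ha hb
    simp only [I, Finset.mem_filter, Finset.mem_univ, true_and] at ha hb
    have hφ : φ a = φ b := ha.1.trans hb.1.symm
    rcases hG a b hab with h | h | h | h
    · exact h2 φ hμ b (hK b) a h hφ
    · exact h2 φ hμ a (hK a) b h hφ.symm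
    · exact hb.2 a h hφ
    · exact ha.2 b h hφ.symm
  · intro v
    have h4 := hsum (fun S => if v ∈ S then 1 else 0)
    simp only [mul_ite, mul_one, mul_zero] at h4
    rw [h4]
    -- survival probability
    have h5 : ∀ φ : V → Fin (m + e), ∑ j, (if v ∈ I φ j then μ φ else 0)
        ≥ μ φ - ∑ p ∈ P v, (if φ p = φ v then μ φ else 0) := by
      intro φ
      have hnn : ∀ p ∈ P v, (0 : ℝ) ≤ (if φ p = φ v then μ φ else 0) := by
        intro p _
        split_ifs
        · exact h0 φ
        · exact le_refl _
      by_cases hgood : ∀ p ∈ P v, φ p ≠ φ v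
      · have h6 : (if v ∈ I φ (φ v) then μ φ else 0) = μ φ := by
          rw [if_pos]
          simp only [I, Finset.mem_filter, Finset.mem_univ, true_and]
          exact hgood
        have h7 := Finset.single_le_sum (f := fun j => if v ∈ I φ j then μ φ else 0)
          (fun j _ => by
            split_ifs
            · exact h0 φ
            · exact le_refl _) (Finset.mem_univ (φ v))
        rw [h6] at h7
        have h8 := Finset.sum_nonneg hnn
        linarith
      · push Not at hgood
        obtain ⟨p, hp, hpv⟩ := hgood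
        have h7 := Finset.single_le_sum hnn hp
        rw [if_pos hpv] at h7
        have h8 : (0 : ℝ) ≤ ∑ j, (if v ∈ I φ j then μ φ else 0) :=
          Finset.sum_nonneg fun j _ => by
            split_ifs
            · exact h0 φ
            · exact le_refl _
        linarith
    have h6 : ∑ φ, ∑ j, (if v ∈ I φ j then μ φ else 0) ≥ 1 - (t : ℝ) / e := by
      calc ∑ φ, ∑ j, (if v ∈ I φ j then μ φ else 0)
          ≥ ∑ φ, (μ φ - ∑ p ∈ P v, (if φ p = φ v then μ φ else 0)) :=
            Finset.sum_le_sum fun φ _ => h5 φ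
        _ = 1 - ∑ p ∈ P v, ∑ φ, (if φ p = φ v then μ φ else 0) := by
            rw [Finset.sum_sub_distrib, h1, Finset.sum_comm]
        _ ≥ 1 - ∑ p ∈ P v, 1 / (e : ℝ) := by
            have : ∑ p ∈ P v, ∑ φ, (if φ p = φ v then μ φ else 0) ≤ ∑ p ∈ P v, 1 / (e : ℝ) := by
              refine Finset.sum_le_sum fun p hp => ?_
              have hpv : p ≠ v := by
                rintro rfl
                exact hP p hp
              exact h3 p v hpv (hK p) (hK v)
            linarith
        _ ≥ 1 - (t : ℝ) / e := by
            rw [Finset.sum_const, nsmul_eq_mul]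
            have : ((P v).card : ℝ) ≤ t := by exact_mod_cast hPc v
            have h9 : ((P v).card : ℝ) * (1 / (e : ℝ)) ≤ t * (1 / (e : ℝ)) :=
              mul_le_mul_of_nonneg_right this (by positivity)
            rw [mul_one_div, mul_one_div] at h9
            rw [mul_one_div]
            linarith
    calc (1 : ℝ) = s * (1 - (t : ℝ) / e) := by
          simp only [s]
          field_simp
      _ ≤ s * ∑ φ, ∑ j, (if v ∈ I φ j then μ φ else 0) :=
          mul_le_mul_of_nonneg_left h6 hs.le
  · have h4 := hsum (fun _ => 1)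
    simp only [mul_one] at h4
    rw [h4]
    have : ∑ φ : V → Fin (m + e), ∑ _j : Fin (m + e), μ φ = (m : ℝ) + e := by
      simp only [Finset.sum_const, nsmul_eq_mul, Finset.card_univ, Fintype.card_fin]
      rw [← Finset.mul_sum, h1, mul_one]
      push_cast
      ring
    rw [this, mul_comm]

theorem FracColorable.mono {G : SimpleGraph V} {x y : ℝ} (h : FracColorable G x) (hxy : x ≤ y) :
    FracColorable G y := by
  obtain ⟨w, h0, h1, h2, h3⟩ := h
  exact ⟨w, h0, h1, h2, h3.trans hxy⟩

end Pool.Agent.Helper7.KS
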