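import Pool.Agent.Helper7.KS.Stage

set_option autoImplicit false
open Classical

namespace Pool.Agent.Helper7.KS

variable {V : Type} [Fintype V]

/-- resampling one coordinate does not change the average. -/
theorem sum_update {s : ℕ} (a : V) (f : (V → Fin s) → ℝ) :
    ∑ φ : V → Fin s, ∑ j : Fin s, f (Function.update φ a j) = s * ∑ φ, f φ := by
  have h1 : ∑ φ : V → Fin s, ∑ j : Fin s, f (Function.update φ a j)
      = ∑ x : (V → Fin s) × Fin s, f (Function.update x.1 a x.2) := by
    rw [Fintype.sum_prod_type]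
  have h2 : ∑ x : (V → Fin s) × Fin s, f (Function.update x.1 a x.2)
      = ∑ x : (V → Fin s) × Fin s, f x.1 := by
    refine Finset.sum_bij' (fun x _ => (Function.update x.1 a x.2, x.1 a))
      (fun x _ => (Function.update x.1 a x.2, x.1 a)) ?_ ?_ ?_ ?_ ?_
    · intro x _; simp
    · intro x _; simp
    · rintro ⟨φ, j⟩ _
      simp
    · rintro ⟨φ, j⟩ _
      simp
    · rintro ⟨φ, j⟩ _
      rfl
  rw [h1, h2, Fintype.sum_prod_type]
  simp [Finset.mul_sum]

theorem sum_coincide {s : ℕ} {a b : V} (hab : a ≠ b) :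
    (s : ℝ) * ∑ φ : V → Fin s, (if φ a = φ b then (1 : ℝ) else 0)
      = Fintype.card (V → Fin s) := by
  rw [← sum_update a]
  have : ∀ φ : V → Fin s, ∑ j : Fin s,
      (if (Function.update φ a j) a = (Function.update φ a j) b then (1 : ℝ) else 0) = 1 := by
    intro φ
    simp [Function.update_of_ne hab.symm]
  simp only [this]
  simp

/-- one round: at least half of the requests are satisfied. -/
theorem hash_round (X : Finset V) (κ : V → V) (K : V → Finset V) (N : ℕ) (hN : 0 < N)
    (hK : ∀ u ∈ X, (K u).card ≤ N) (hκ : ∀ u ∈ X, κ u ∉ K u) :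
    ∃ l : V → Fin (2 * N), 2 * (X.filter (fun u => ∃ b ∈ K u, l (κ u) = l b)).card ≤ X.card := by
  by_contra hcon
  push Not at hcon
  have hNpos : (0 : ℝ) < N := by exact_mod_cast hN
  have : Nonempty (Fin (2 * N)) := ⟨⟨0, by omega⟩⟩
  set C : ℝ := ((Fintype.card (V → Fin (2 * N)) : ℕ) : ℝ) with hC
  have hCpos : 0 < C := by
    rw [hC]
    exact_mod_cast Fintype.card_pos
  have h1 : ∑ l : V → Fin (2 * N), (X.card : ℝ)
      < ∑ l : V → Fin (2 * N), 2 * ((X.filter (fun u => ∃ b ∈ K u, l (κ u) = l b)).card : ℝ) := by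
    apply Finset.sum_lt_sum_of_nonempty Finset.univ_nonempty
    intro l _
    exact_mod_cast hcon l
  have h2 : ∑ l : V → Fin (2 * N), 2 * ((X.filter (fun u => ∃ b ∈ K u, l (κ u) = l b)).card : ℝ)
      ≤ X.card * C := by
    rw [← Finset.mul_sum]
    calc 2 * ∑ l : V → Fin (2 * N), ((X.filter (fun u => ∃ b ∈ K u, l (κ u) = l b)).card : ℝ)
        ≤ 2 * ∑ l : V → Fin (2 * N), ∑ u ∈ X, ∑ b ∈ K u, (if l (κ u) = l b then (1 : ℝ) else 0) := by
          refine mul_le_mul_of_nonneg_left (Finset.sum_le_sum fun l _ => ?_) (by norm_num)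
          rw [Finset.card_filter]
          push_cast
          refine Finset.sum_le_sum fun u _ => ?_
          have hnn : ∀ b ∈ K u, (0 : ℝ) ≤ (if l (κ u) = l b then (1 : ℝ) else 0) := by
            intro b _
            split_ifs <;> norm_num
          split_ifs with hex
          · obtain ⟨b, hb, hlb⟩ := hex
            have := Finset.single_le_sum hnn hb
            rw [if_pos hlb] at this
            exact this
          · exact Finset.sum_nonneg hnn
      _ = 2 * ∑ u ∈ X, ∑ b ∈ K u, ∑ l : V → Fin (2 * N), (if l (κ u) = l b then (1 : ℝ) else 0) := by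
          congr 1
          rw [Finset.sum_comm]
          refine Finset.sum_congr rfl fun u _ => ?_
          rw [Finset.sum_comm]
      _ = 2 * ∑ u ∈ X, ∑ b ∈ K u, C / (2 * N) := by
          congr 1
          refine Finset.sum_congr rfl fun u hu => Finset.sum_congr rfl fun b hb => ?_
          have hne : κ u ≠ b := by
            rintro rfl
            exact hκ u hu hb
          have h3 := sum_coincide (s := 2 * N) hne
          rw [eq_div_iff (by positivity), ← hC] at *
          push_cast at h3
          rw [mul_comm]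
          exact h3
      _ ≤ 2 * ∑ u ∈ X, (N : ℝ) * (C / (2 * N)) := by
          refine mul_le_mul_of_nonneg_left (Finset.sum_le_sum fun u hu => ?_) (by norm_num)
          rw [Finset.sum_const, nsmul_eq_mul]
          refine mul_le_mul_of_nonneg_right ?_ (by positivity)
          exact_mod_cast hK u hu
      _ = X.card * C := by
          rw [Finset.sum_const, nsmul_eq_mul]
          field_simp
  rw [Finset.sum_const, nsmul_eq_mul, Finset.card_univ, ← hC] at h1
  nlinarith

/-- `L` rounds satisfy all requests if there are fewer than `2^L` of them. -/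
theorem hash_all (κ : V → V) (K : V → Finset V) (N : ℕ) (hN : 0 < N) (L : ℕ) :
    ∀ X : Finset V, (∀ u ∈ X, (K u).card ≤ N) → (∀ u ∈ X, κ u ∉ K u) → X.card < 2 ^ L →
    ∃ l : Fin L → V → Fin (2 * N), ∀ u ∈ X, ∃ i, ∀ b ∈ K u, l i (κ u) ≠ l i b := by
  induction L with
  | zero =>
    intro X _ _ hX
    have : X = ∅ := by
      rw [← Finset.card_eq_zero]
      simpa using hX
    subst this
    exact ⟨fun i => i.elim0, by simp⟩
  | succ L ih =>
    intro X h1 h2 hX
    obtain ⟨l0, hl0⟩ := hash_round X κ K N hN h1 h2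
    set Y := X.filter (fun u => ∃ b ∈ K u, l0 (κ u) = l0 b) with hY
    have hYX : Y ⊆ X := Finset.filter_subset _ _
    obtain ⟨l, hl⟩ := ih Y (fun u hu => h1 u (hYX hu)) (fun u hu => h2 u (hYX hu))
      (by rw [pow_succ] at hX; omega)
    refine ⟨Fin.cons l0 l, fun u hu => ?_⟩
    by_cases huY : u ∈ Y
    · obtain ⟨i, hi⟩ := hl u huY
      exact ⟨i.succ, by simpa using hi⟩
    · refine ⟨0, ?_⟩
      intro b hb hcon
      apply huY
      rw [hY, Finset.mem_filter]
      refine ⟨hu, b, hb, ?_⟩
      simpa using hcon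

end Pool.Agent.Helper7.KS
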