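import Pool.Agent.Helper7.KS.Composed

set_option autoImplicit false
open Classical

namespace Pool.Agent.Helper7.KS

/-- `2 σ + Σ m_i² = (Σ m_i)²` -/
theorem two_sigma {k : ℕ} (m : Fin k → ℕ) :
    2 * (∑ i, ∑ j, if i < j then m i * m j else 0) + ∑ i, m i * m i
      = (∑ i, m i) * (∑ i, m i) := by
  rw [Finset.sum_mul_sum]
  have h1 : ∀ i j : Fin k, m i * m j = (if i < j then m i * m j else 0)
      + (if j < i then m i * m j else 0) + (if i = j then m i * m j else 0) := by
    intro i j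
    rcases lt_trichotomy i j with h | h | h
    · simp [h, h.ne, h.not_gt]
    · simp [h]
    · simp [h, h.ne', h.not_gt]
  have h2 : ∑ i, ∑ j, m i * m j = ∑ i, ∑ j, (if i < j then m i * m j else 0)
      + ∑ i, ∑ j, (if j < i then m i * m j else 0) + ∑ i, ∑ j, (if i = j then m i * m j else 0) := by
    rw [← Finset.sum_add_distrib, ← Finset.sum_add_distrib]
    refine Finset.sum_congr rfl fun i _ => ?_
    rw [← Finset.sum_add_distrib, ← Finset.sum_add_distrib]
    exact Finset.sum_congr rfl fun j _ => h1 i j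
  have h3 : ∑ i, ∑ j, (if j < i then m i * m j else 0)
      = ∑ i, ∑ j, (if i < j then m i * m j else 0) := by
    rw [Finset.sum_comm]
    refine Finset.sum_congr rfl fun i _ => Finset.sum_congr rfl fun j _ => ?_
    rw [mul_comm]
  have h4 : ∑ i, ∑ j, (if i = j then m i * m j else 0) = ∑ i, m i * m i := by
    refine Finset.sum_congr rfl fun i _ => ?_
    simp
  rw [h2, h3, h4]
  ring

/-- `M t ≤ 2 σ` if `i₀` is a largest piece. -/
theorem mt_le {k : ℕ} (m : Fin k → ℕ) (i₀ : Fin k) (hmax : ∀ i, m i ≤ m i₀) :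
    (∑ i, m i) * (∑ i ∈ Finset.univ.erase i₀, m i)
      ≤ 2 * (∑ i, ∑ j, if i < j then m i * m j else 0) := by
  have h1 := two_sigma m
  have hM : ∑ i, m i = m i₀ + ∑ i ∈ Finset.univ.erase i₀, m i :=
    (Finset.add_sum_erase _ _ (Finset.mem_univ i₀)).symm
  have h2 : ∑ i, m i * m i ≤ (∑ i, m i) * m i₀ := by
    rw [Finset.sum_mul]
    exact Finset.sum_le_sum fun i _ => Nat.mul_le_mul_left _ (hmax i)
  set M := ∑ i, m i
  set t := ∑ i ∈ Finset.univ.erase i₀, m i
  have h3 : M * M = M * m i₀ + M * t := by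
    nth_rewrite 2 [hM]; ring
  omega

/-- `m_{i₀} t ≤ σ`. -/
theorem mm_le {k : ℕ} (m : Fin k → ℕ) (i₀ : Fin k) :
    m i₀ * (∑ i ∈ Finset.univ.erase i₀, m i)
      ≤ (∑ i, ∑ j, if i < j then m i * m j else 0) := by
  have h1 := two_sigma m
  have hM : ∑ i, m i = m i₀ + ∑ i ∈ Finset.univ.erase i₀, m i :=
    (Finset.add_sum_erase _ _ (Finset.mem_univ i₀)).symm
  have h2 : ∑ i, m i * m i = m i₀ * m i₀ + ∑ i ∈ Finset.univ.erase i₀, m i * m i :=
    (Finset.add_sum_erase _ _ (Finset.mem_univ i₀)).symm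
  have h3 : ∑ i ∈ Finset.univ.erase i₀, m i * m i
      ≤ (∑ i ∈ Finset.univ.erase i₀, m i) * (∑ i ∈ Finset.univ.erase i₀, m i) := by
    rw [Finset.sum_mul]
    refine Finset.sum_le_sum fun i hi => Nat.mul_le_mul_left _ ?_
    exact Finset.single_le_sum (f := m) (fun _ _ => Nat.zero_le _) hi
  rw [hM, h2] at h1
  set t := ∑ i ∈ Finset.univ.erase i₀, m i
  nlinarith [h1, h3]

variable {V : Type} [Fintype V]

theorem frac_sigma {k : ℕ} (m : Fin k → ℕ) (G : SimpleGraph V) (H : Fin k → SimpleGraph V)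
    (h : ∀ i, ∀ S : Finset V, S.Nonempty →
          ∃ v ∈ S, (S.filter (fun w => (H i).Adj v w)).card ≤ m i)
    (hG : G = ⨆ i, H i) :
    FracColorable G (((∑ i, m i : ℕ) : ℝ) + 1
      + Real.sqrt (8 * (((∑ i, ∑ j, if i < j then m i * m j else 0 : ℕ)) : ℝ))) := by
  rcases Nat.eq_zero_or_pos k with hk | hk
  · subst hk
    refine (frac_trivial G H h hG).mono ?_
    simp
  · haveI : Nonempty (Fin k) := ⟨⟨0, hk⟩⟩
    obtain ⟨i₀, hmax⟩ := Finite.exists_max m
    have ha := mt_le m i₀ hmax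
    have hb := mm_le m i₀
    have hM : ∑ i, m i = m i₀ + ∑ i ∈ Finset.univ.erase i₀, m i :=
      (Finset.add_sum_erase _ _ (Finset.mem_univ i₀)).symm
    have hF := frac_main G H h hG i₀
    have hT := frac_trivial G H h hG
    set σ := (∑ i, ∑ j, if i < j then m i * m j else 0 : ℕ)
    set t := ∑ i ∈ Finset.univ.erase i₀, m i
    set M := ∑ i, m i
    have ha' : (M : ℝ) * t ≤ 2 * σ := by exact_mod_cast ha
    have hb' : (m i₀ : ℝ) * t ≤ σ := by exact_mod_cast hb
    have hM' : (M : ℝ) = m i₀ + t := by exact_mod_cast hM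
    have hMn : (0 : ℝ) ≤ M := Nat.cast_nonneg _
    have htn : (0 : ℝ) ≤ t := Nat.cast_nonneg _
    have hmn : (0 : ℝ) ≤ m i₀ := Nat.cast_nonneg _
    have hσn : (0 : ℝ) ≤ σ := Nat.cast_nonneg _
    by_cases hc : (M : ℝ) * M ≤ 8 * σ
    · refine hT.mono ?_
      have : (M : ℝ) ≤ Real.sqrt (8 * σ) := Real.le_sqrt_of_sq_le (by rw [sq]; exact hc)
      linarith
    · push Not at hc
      refine hF.mono ?_
      -- M > 0, t < M / 6
      have hMpos : (0 : ℝ) < M := by
        rcases hMn.lt_or_eq with h1 | h1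
        · exact h1
        · rw [← h1] at hc; nlinarith
      have ht4 : (t : ℝ) < M / 4 := by
        by_contra hcon
        push Not at hcon
        nlinarith
      have ht6 : (t : ℝ) < M / 6 := by
        by_contra hcon
        push Not at hcon
        have h1 : (3 / 4 : ℝ) * M ≤ m i₀ := by linarith
        have h2 : (3 / 4 : ℝ) * M * (M / 6) ≤ m i₀ * t :=
          mul_le_mul h1 hcon (by positivity) hmn
        nlinarith
      have hsq : (Real.sqrt (M : ℝ) + Real.sqrt (t : ℝ)) ^ 2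
          = (M : ℝ) + t + 2 * (Real.sqrt M * Real.sqrt t) := by
        rw [add_sq, Real.sq_sqrt hMn, Real.sq_sqrt htn]; ring
      rw [hsq]
      set q := Real.sqrt (M : ℝ) * Real.sqrt (t : ℝ) with hq
      have hq0 : 0 ≤ q := mul_nonneg (Real.sqrt_nonneg _) (Real.sqrt_nonneg _)
      have hqq : q ^ 2 = M * t := by
        rw [hq, mul_pow, Real.sq_sqrt hMn, Real.sq_sqrt htn]
      have hq1 : 4 * q ≤ 2 * M + 2 * t := by
        have h1 : q ^ 2 ≤ ((M + t) / 2) ^ 2 := by
          rw [hqq]; nlinarith [sq_nonneg ((M : ℝ) - t)]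
        have h2 : q ≤ (M + t) / 2 := by
          have := abs_le_abs_of_nonneg hq0 (le_refl q)
          exact (pow_le_pow_iff_left₀ hq0 (by positivity) (by norm_num)).mp h1
        linarith
      have hfin : t + 2 * q ≤ Real.sqrt (8 * σ) := by
        apply Real.le_sqrt_of_sq_le
        have h1 : (t + 2 * q) ^ 2 = t ^ 2 + 4 * t * q + 4 * (M * t) := by
          rw [← hqq]; ring
        rw [h1]
        have h2 : (8 : ℝ) * (m i₀ * t) ≤ 8 * σ := by linarith
        refine le_trans ?_ h2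
        have h3 : (m i₀ : ℝ) = M - t := by linarith
        rw [h3]
        have h4 : 9 * (t : ℝ) + 4 * q ≤ 4 * M := by linarith
        nlinarith [mul_le_mul_of_nonneg_left h4 htn]
      linarith

end Pool.Agent.Helper7.KS
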