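import Pool.Agent.Helper7.KS.Sigma

set_option autoImplicit false
open Classical

namespace Pool.Agent.Helper7.KS

variable {V : Type} [Fintype V]

/-- the vertices `p` that hit `B v` : some `w ∈ B v` has `p` as a late parent of the same colour -/
noncomputable def hit {c : ℕ} (B Pl : V → Finset V) (φ : V → Fin c) (v : V) : Finset V :=
  Finset.univ.filter (fun p => ∃ w ∈ B v, p ∈ Pl w ∧ φ w = φ p)

/-- derandomized random greedy colouring with few hits. -/
theorem greedy_hits (r : V → ℕ) (hr : Function.Injective r) (W Pl B : V → Finset V)
    (hW : ∀ v, ∀ w ∈ W v, r w < r v) (hPl : ∀ v, ∀ p ∈ Pl v, r v < r p)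
    (a t M e : ℕ) (he : 0 < e) (hWc : ∀ v, (W v).card ≤ a)
    (hPlc : ∀ v, (Pl v).card ≤ t) (hB : ∀ v, (B v).card ≤ M) :
    ∃ φ : V → Fin (a + e), (∀ v, ∀ w ∈ W v, φ w ≠ φ v) ∧
      ∀ v, (2 : ℝ) ^ (hit B Pl φ v).card ≤
        (Fintype.card V : ℝ) * Real.exp ((M : ℝ) * t / e) := by
  have hepos : (0 : ℝ) < e := by exact_mod_cast he
  let q : V → V → ℝ := fun v p => (((B v).filter (fun w => p ∈ Pl w)).card : ℝ) / e
  have hq : ∀ v p, 0 ≤ q v p := fun v p => by positivity
  let f : (V → Fin (a + e)) → V → V → ℝ := fun φ v p =>
    (if ∃ w ∈ B v, p ∈ Pl w ∧ φ w = φ p then 2 else 1) / (1 + q v p)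
  have hf : ∀ φ v p, 0 ≤ f φ v p := by
    intro φ v p
    have := hq v p
    simp only [f]
    apply div_nonneg
    · split_ifs <;> norm_num
    · linarith
  have key : ∀ k : ℕ, ∃ φ : V → Fin (a + e), (∀ v, r v < k → ∀ w ∈ W v, φ w ≠ φ v) ∧
      ∑ v, ∏ p ∈ Finset.univ.filter (fun p => r p < k), f φ v p ≤ (Fintype.card V : ℝ) := by
    intro k
    induction k with
    | zero =>
      refine ⟨fun _ => ⟨0, by omega⟩, by intro v hv; omega, ?_⟩
      simp
    | succ k ih =>
      obtain ⟨φ, h1, h2⟩ := ih
      by_cases hp : ∃ p, r p = k
      · obtain ⟨p, hp⟩ := hp
        let A : Finset (Fin (a + e)) := Finset.univ \ (W p).image φ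
        have hA : e ≤ A.card := by
          have h4 : ((W p).image φ).card ≤ a := le_trans Finset.card_image_le (hWc p)
          have h5 : A.card = a + e - ((W p).image φ).card := by
            simp only [A]
            rw [Finset.card_sdiff_of_subset (Finset.subset_univ _), Finset.card_univ,
              Fintype.card_fin]
          omega
        have hApos : (0 : ℝ) < A.card := by exact_mod_cast lt_of_lt_of_le he hA
        have hset : Finset.univ.filter (fun x => r x < k + 1)
            = insert p (Finset.univ.filter (fun x => r x < k)) := by
          ext x
          simp only [Finset.mem_filter, Finset.mem_univ, true_and, Finset.mem_insert]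
          constructor
          · intro hx
            by_cases hxp : x = p
            · exact Or.inl hxp
            · right
              have : r x ≠ k := fun h => hxp (hr (h.trans hp.symm))
              omega
          · rintro (rfl | hx) <;> omega
        have hnotin : p ∉ Finset.univ.filter (fun x => r x < k) := by
          simp only [Finset.mem_filter, Finset.mem_univ, true_and]; omega
        -- earlier factors do not change
        have hold : ∀ j v x, r x < k → f (Function.update φ p j) v x = f φ v x := by
          intro j v x hx
          have hxp : x ≠ p := by rintro rfl; omega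
          simp only [f]
          congr 1
          refine if_congr ?_ rfl rfl
          constructor
          · rintro ⟨w, hw, hxw, he1⟩
            have hwp : w ≠ p := by
              rintro rfl
              have := hPl w x hxw
              omega
            rw [Function.update_of_ne hwp, Function.update_of_ne hxp] at he1
            exact ⟨w, hw, hxw, he1⟩
          · rintro ⟨w, hw, hxw, he1⟩
            have hwp : w ≠ p := by
              rintro rfl
              have := hPl w x hxw
              omega
            refine ⟨w, hw, hxw, ?_⟩
            rw [Function.update_of_ne hwp, Function.update_of_ne hxp]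
            exact he1
        -- the new factor averages to at most one
        have hnew : ∀ v, ∑ j ∈ A, f (Function.update φ p j) v p ≤ A.card := by
          intro v
          have hq' := hq v p
          simp only [f]
          rw [← Finset.sum_div, div_le_iff₀ (by linarith)]
          have h3 : ∀ j ∈ A, (if ∃ w ∈ B v, p ∈ Pl w ∧ (Function.update φ p j) w
              = (Function.update φ p j) p then (2 : ℝ) else 1)
              ≤ 1 + ∑ w ∈ (B v).filter (fun w => p ∈ Pl w), (if φ w = j then (1 : ℝ) else 0) := by
            intro j _
            have hnn : ∀ w ∈ (B v).filter (fun w => p ∈ Pl w),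
                (0 : ℝ) ≤ (if φ w = j then (1 : ℝ) else 0) := by
              intro w _
              split_ifs <;> norm_num
            split_ifs with hex
            · obtain ⟨w, hw, hpw, he1⟩ := hex
              have hwp : w ≠ p := by
                rintro rfl
                have := hPl w w hpw
                omega
              rw [Function.update_of_ne hwp, Function.update_self] at he1
              have h4 := Finset.single_le_sum hnn (Finset.mem_filter.mpr ⟨hw, hpw⟩)
              rw [if_pos he1] at h4
              linarith
            · have h4 := Finset.sum_nonneg hnn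
              linarith
          refine le_trans (Finset.sum_le_sum h3) ?_
          rw [Finset.sum_add_distrib, Finset.sum_comm]
          have h5 : ∑ w ∈ (B v).filter (fun w => p ∈ Pl w), ∑ j ∈ A, (if φ w = j then (1 : ℝ) else 0)
              ≤ ((B v).filter (fun w => p ∈ Pl w)).card := by
            rw [← nsmul_one, ← Finset.sum_const]
            refine Finset.sum_le_sum fun w _ => ?_
            rw [Finset.sum_ite_eq]
            split_ifs <;> norm_num
          have h6 : (((B v).filter (fun w => p ∈ Pl w)).card : ℝ) = e * q v p := by
            simp only [q]
            field_simp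
          have h7 : (e : ℝ) * q v p ≤ A.card * q v p :=
            mul_le_mul_of_nonneg_right (by exact_mod_cast hA) hq'
          rw [Finset.sum_const, nsmul_one]
          nlinarith
        -- averaging
        have havg : ∑ j ∈ A, ∑ v, ∏ x ∈ Finset.univ.filter (fun x => r x < k + 1),
            f (Function.update φ p j) v x ≤ ∑ j ∈ A, (Fintype.card V : ℝ) := by
          rw [Finset.sum_comm]
          calc ∑ v, ∑ j ∈ A, ∏ x ∈ Finset.univ.filter (fun x => r x < k + 1),
                f (Function.update φ p j) v x
              = ∑ v, (∑ j ∈ A, f (Function.update φ p j) v p)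
                  * ∏ x ∈ Finset.univ.filter (fun x => r x < k), f φ v x := by
                refine Finset.sum_congr rfl fun v _ => ?_
                rw [Finset.sum_mul]
                refine Finset.sum_congr rfl fun j _ => ?_
                rw [hset, Finset.prod_insert hnotin]
                congr 1
                refine Finset.prod_congr rfl fun x hx => hold j v x ?_
                exact (Finset.mem_filter.mp hx).2
            _ ≤ ∑ v, (A.card : ℝ)
                  * ∏ x ∈ Finset.univ.filter (fun x => r x < k), f φ v x := by
                refine Finset.sum_le_sum fun v _ => ?_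
                exact mul_le_mul_of_nonneg_right (hnew v)
                  (Finset.prod_nonneg fun x _ => hf φ v x)
            _ ≤ (A.card : ℝ) * (Fintype.card V : ℝ) := by
                rw [← Finset.mul_sum]
                exact mul_le_mul_of_nonneg_left h2 hApos.le
            _ = ∑ j ∈ A, (Fintype.card V : ℝ) := by
                rw [Finset.sum_const, nsmul_eq_mul]
        obtain ⟨j, hj, hjle⟩ := Finset.exists_le_of_sum_le
          (by
            rw [← Finset.card_pos]
            omega) havg
        refine ⟨Function.update φ p j, ?_, hjle⟩
        intro v hv w hw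
        have hwv := hW v w hw
        by_cases hvp : v = p
        · subst hvp
          have hwne : w ≠ v := by rintro rfl; omega
          rw [Function.update_self, Function.update_of_ne hwne]
          intro hcon
          simp only [A, Finset.mem_sdiff, Finset.mem_univ, true_and, Finset.mem_image,
            not_exists, not_and] at hj
          exact hj w hw hcon
        · have hvk : r v < k := by
            have : r v ≠ k := fun h => hvp (hr (h.trans hp.symm))
            omega
          have hwne : w ≠ p := by rintro rfl; omega
          rw [Function.update_of_ne hvp, Function.update_of_ne hwne]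
          exact h1 v hvk w hw
      · push Not at hp
        refine ⟨φ, ?_, ?_⟩
        · intro v hv w hw
          have := hp v
          exact h1 v (by omega) w hw
        · have hset : Finset.univ.filter (fun x => r x < k + 1)
              = Finset.univ.filter (fun x => r x < k) := by
            ext x
            simp only [Finset.mem_filter, Finset.mem_univ, true_and]
            have := hp x
            omega
          rw [hset]
          exact h2
  obtain ⟨K, hK⟩ : ∃ K : ℕ, ∀ v, r v < K := by
    refine ⟨∑ v, r v + 1, fun v => ?_⟩
    have := Finset.single_le_sum (f := r) (fun i _ => Nat.zero_le _) (Finset.mem_univ v)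
    omega
  obtain ⟨φ, h1, h2⟩ := key K
  refine ⟨φ, fun v => h1 v (hK v), fun v => ?_⟩
  have huniv : Finset.univ.filter (fun p => r p < K) = (Finset.univ : Finset V) := by
    ext x; simp [hK x]
  rw [huniv] at h2
  have h3 : ∏ p, f φ v p ≤ (Fintype.card V : ℝ) :=
    le_trans (Finset.single_le_sum (f := fun v => ∏ p, f φ v p)
      (fun v _ => Finset.prod_nonneg fun x _ => hf φ v x) (Finset.mem_univ v)) h2
  have h4 : ∏ p, f φ v p = (2 : ℝ) ^ (hit B Pl φ v).card / ∏ p, (1 + q v p) := by
    simp only [f]
    rw [Finset.prod_div_distrib]
    congr 1
    rw [Finset.prod_ite]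
    simp [hit]
  have hprod : 0 < ∏ p, (1 + q v p) := Finset.prod_pos fun p _ => by
    have := hq v p; linarith
  rw [h4, div_le_iff₀ hprod] at h3
  refine le_trans h3 (mul_le_mul_of_nonneg_left ?_ (Nat.cast_nonneg _))
  calc ∏ p, (1 + q v p) ≤ ∏ p, Real.exp (q v p) := by
        refine Finset.prod_le_prod (fun p _ => ?_) (fun p _ => ?_)
        · have := hq v p; linarith
        · have := Real.add_one_le_exp (q v p); linarith
    _ = Real.exp (∑ p, q v p) := (Real.exp_sum _ _).symm
    _ ≤ Real.exp ((M : ℝ) * t / e) := by
        apply Real.exp_le_exp.mpr
        simp only [q]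
        rw [← Finset.sum_div]
        apply div_le_div_of_nonneg_right _ hepos.le
        have h5 : ∑ p, ((B v).filter (fun w => p ∈ Pl w)).card = ∑ w ∈ B v, (Pl w).card := by
          simp only [Finset.card_filter]
          rw [Finset.sum_comm]
          refine Finset.sum_congr rfl fun w _ => ?_
          simp
        have h6 : ∑ w ∈ B v, (Pl w).card ≤ M * t := by
          calc ∑ w ∈ B v, (Pl w).card ≤ ∑ w ∈ B v, t := Finset.sum_le_sum fun w _ => hPlc w
            _ = (B v).card * t := by rw [Finset.sum_const, smul_eq_mul]
            _ ≤ M * t := Nat.mul_le_mul_right _ (hB v)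
        have h7 : ∑ p, (((B v).filter (fun w => p ∈ Pl w)).card : ℝ) ≤ (M : ℝ) * t := by
          rw [← Nat.cast_sum, h5]
          exact_mod_cast h6
        exact h7

end Pool.Agent.Helper7.KS
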